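import Pool.Agent.H489K.Extra

/-!
A strand which passes behind two strands in a vector killed by `E`.
-/

set_option autoImplicit false

namespace Pool.Agent.H50B

open Matrix Finset Pool.Agent.R807 Pool.Agent.H550R3.Jones Pool.Agent.W709.QAT Pool.Agent.H489K
open Pool.Agent.W715.VC (rt EE Eo Ko sh M1 M2 adm rt_ne rt_zpow_N Eo_sum br_ne Eo_ne)
open Pool.Agent.W683.QAT (cP_diag cP_zero)

variable {N : ℕ}

/-- the third strand passes to the left -/
def pas : Diag := [.twist 1 true 1, .twist 0 true 1]

lemma fits_pas : Fits pas 3 3 := rfl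

/-- a vector on two strands and a letter on the right of it -/
noncomputable def gc (w : Fin N × Fin N → ℂ) (c : Fin N) : List (Fin N) → ℂ
  | [a, b, x] => if x = c then w (a, b) else 0
  | _ => 0

/-- the scalar of the passage -/
noncomputable def sg (N s : ℕ) (c : Fin N) : ℂ :=
  rt N ^ (-((N : ℤ) - 1) * (2 + (s : ℤ) + 2 * (c : ℕ)) + 2 * (s : ℤ) * (c : ℕ))

lemma pas_val (f : List (Fin N) → ℂ) (x a b : Fin N) : run N (rt N) pas f [x, a, b] =
    ∑ q : Fin N × Fin N, crossP N (rt N) (x, a) q *
      ∑ r : Fin N × Fin N, crossP N (rt N) (q.2, b) r * f [q.1, r.1, r.2] := by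
  have h1 := act_twist 0 true 1 ((Piece.twist 1 true 1).act N (rt N) f) [] x a [b] rfl
  simp only [List.nil_append, cr_one] at h1
  change (Piece.twist 0 true 1).act N (rt N) ((Piece.twist 1 true 1).act N (rt N) f) [x, a, b] = _
  rw [h1]
  refine sum_congr rfl fun q _ => ?_
  congr 1
  have h2 := act_twist 1 true 1 f [q.1] q.2 b [] rfl
  simp only [List.cons_append, List.nil_append, cr_one] at h2
  exact h2

lemma cP_ne {p q : Fin N × Fin N} (h : crossP N (rt N) p q ≠ 0) :
    (p.1 : ℕ) + p.2 = q.1 + q.2 ∧ (q.2 : ℕ) ≤ p.1 := by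
  by_contra h1
  exact h (cP_zero h1)

lemma gc_ne {w : Fin N × Fin N → ℂ} {a b x c : Fin N} (h : gc w c [a, b, x] ≠ 0) : x = c := by
  by_contra h1
  exact h (if_neg h1)

lemma pas_lt (w : Fin N × Fin N → ℂ) {x c : Fin N} (h : (x : ℕ) < c) (a b : Fin N) :
    run N (rt N) pas (gc w c) [x, a, b] = 0 := by
  rw [pas_val]
  refine sum_eq_zero fun q _ => ?_
  by_contra h1
  have h2 := cP_ne (left_ne_zero_of_mul h1)
  obtain ⟨r, _, h3⟩ := exists_ne_zero_of_sum_ne_zero (right_ne_zero_of_mul h1)
  have h4 := cP_ne (left_ne_zero_of_mul h3)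
  have h5 := gc_ne (right_ne_zero_of_mul h3)
  rw [h5] at h4
  simp only at h2 h4
  omega

lemma pas_eq {w : Fin N × Fin N → ℂ} {s : ℕ} (hw : ∀ p, w p ≠ 0 → (p.1 : ℕ) + p.2 = s)
    (c a b : Fin N) : run N (rt N) pas (gc w c) [c, a, b] = sg N s c * w (a, b) := by
  rw [pas_val, sum_eq_single (a, c)]
  · rw [sum_eq_single (b, c)]
    · have h1 : gc w c [a, b, c] = w (a, b) := if_pos rfl
      simp only
      rw [h1, cP_diag (adm N), cP_diag (adm N)]
      by_cases h : w (a, b) = 0
      · rw [h]; ring
      · have h2 := hw _ h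
        simp only at h2
        rw [← mul_assoc, ← zpow_add₀ (rt_ne N)]
        congr 1
        unfold sg
        congr 1
        rw [← h2]
        push_cast
        ring
    · intro r _ hr
      by_contra h3
      have h4 := cP_ne (left_ne_zero_of_mul h3)
      have h5 := gc_ne (right_ne_zero_of_mul h3)
      simp only [h5] at h4
      exact hr (Prod.ext (Fin.ext (show (r.1 : ℕ) = b by omega)) h5)
    · intro h; exact absurd (mem_univ _) h
  · intro q _ hq
    by_contra h1
    have h2 := cP_ne (left_ne_zero_of_mul h1)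
    obtain ⟨r, _, h3⟩ := exists_ne_zero_of_sum_ne_zero (right_ne_zero_of_mul h1)
    have h4 := cP_ne (left_ne_zero_of_mul h3)
    have h5 := gc_ne (right_ne_zero_of_mul h3)
    simp only [h5] at h2 h4
    exact hq (Prod.ext (Fin.ext (show (q.1 : ℕ) = a by omega)) (Fin.ext (show (q.2 : ℕ) = c by omega)))
  · intro h; exact absurd (mem_univ _) h

lemma El_gc {w : Fin N × Fin N → ℂ} (hE : ∀ a b, ∑ q : Fin N × Fin N, EE N (a, b) q * w q = 0)
    (c : Fin N) (s : List (Fin N)) (hs : s.length = 3) :
    El N s (gc w c) = ∑ c', Eo N c' c * gc w c' s := by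
  obtain ⟨a, b, x, rfl⟩ := List.length_eq_three.1 hs
  have e : [a, b, x] = [a, b] ++ [x] := rfl
  have h2 : ∑ c', Eo N c' c * gc w c' [a, b, x] = Eo N x c * w (a, b) := by
    rw [sum_eq_single x]
    · have h1 : gc w x [a, b, x] = w (a, b) := if_pos rfl
      rw [h1]
    · intro y _ hy
      have h1 : gc w y [a, b, x] = 0 := if_neg (Ne.symm hy)
      rw [h1, mul_zero]
    · intro h; exact absurd (mem_univ _) h
  rw [h2, e, El_append]
  have h3 : El N [a, b] (fun t => gc w c (t ++ [x])) = 0 := by
    rw [El_two a b (fun q => if x = c then w q else 0) _ (fun p => rfl)]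
    split_ifs with h
    · exact hE a b
    · simp
  rw [h3, mul_zero, zero_add, El_cons]
  have h4 : El N [] (fun t => gc w c ([a, b] ++ x :: t)) = 0 := rfl
  have h5 : ∑ y, Eo N x y * gc w c ([a, b] ++ [y]) = Eo N x c * w (a, b) := by
    rw [sum_eq_single c]
    · have h1 : gc w c ([a, b] ++ [c]) = w (a, b) := if_pos rfl
      rw [h1]
    · intro y _ hy
      have h1 : gc w c ([a, b] ++ [y]) = 0 := if_neg hy
      rw [h1, mul_zero]
    · intro h; exact absurd (mem_univ _) h
  rw [h4, add_zero, kf_nil, one_mul, h5]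

/-- the relation between the passages of different letters -/
lemma pas_rel (hN : 0 < N) {w : Fin N × Fin N → ℂ}
    (hE : ∀ a b, ∑ q : Fin N × Fin N, EE N (a, b) q * w q = 0) (c x a b : Fin N) :
    kf N [a, b] * (∑ y, Eo N x y * run N (rt N) pas (gc w c) [y, a, b]) +
      ∑ q : Fin N × Fin N, EE N (a, b) q * run N (rt N) pas (gc w c) [x, q.1, q.2] =
    ∑ c', Eo N c' c * run N (rt N) pas (gc w c') [x, a, b] := by
  have h1 := El_run hN pas fits_pas (gc w c) [x, a, b] rfl
  rw [run_local pas fits_pas (fun t ht => El_gc hE c t ht) [x, a, b] rfl, run_lin] at h1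
  change _ = ∑ j, Eo N j c * run N (rt N) pas (gc w j) [x, a, b] at h1
  rw [← h1, El_cons]
  congr 1
  exact (El_two a b (fun q => run N (rt N) pas (gc w c) [x, q.1, q.2]) _ (fun p => rfl)).symm

/-- **a strand passes behind a vector killed by `E` without change** -/
theorem pas_ker (hN : 0 < N) {w : Fin N × Fin N → ℂ} {s : ℕ}
    (hE : ∀ a b, ∑ q : Fin N × Fin N, EE N (a, b) q * w q = 0)
    (hw : ∀ p, w p ≠ 0 → (p.1 : ℕ) + p.2 = s) (c x a b : Fin N) :
    run N (rt N) pas (gc w c) [x, a, b] = if x = c then sg N s c * w (a, b) else 0 := by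
  -- the step from `y` to `x = y + 1`
  have step : ∀ c x y : Fin N, (x : ℕ) = y + 1 → 
      (∀ a b, ∑ q : Fin N × Fin N, EE N (a, b) q * run N (rt N) pas (gc w c) [y, q.1, q.2] = 0) →
      (∀ c' : Fin N, (c : ℕ) = c' + 1 → ∀ a b, run N (rt N) pas (gc w c') [y, a, b] = 0) →
      ∀ a b, run N (rt N) pas (gc w c) [x, a, b] = 0 := by
    intro c x y hxy h1 h2 a b
    have hr := pas_rel hN hE c y a b
    rw [h1 a b, add_zero] at hr
    have e2 : ∑ c', Eo N c' c * run N (rt N) pas (gc w c') [y, a, b] = 0 := by
      refine sum_eq_zero fun c' _ => ?_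
      by_contra h
      exact (right_ne_zero_of_mul h) (h2 c' (Eo_ne (left_ne_zero_of_mul h)) a b)
    rw [e2] at hr
    have e3 : ∑ z, Eo N y z * run N (rt N) pas (gc w c) [z, a, b] =
        Eo N y x * run N (rt N) pas (gc w c) [x, a, b] := by
      refine sum_eq_single x ?_ ?_
      · intro z _ hz
        by_contra h
        have h3 := Eo_ne (left_ne_zero_of_mul h)
        exact hz (Fin.ext (by omega))
      · intro h; exact absurd (mem_univ _) h
    rw [e3] at hr
    have e4 : kf N [a, b] ≠ 0 := by
      rw [kf_cons, kf_cons, kf_nil, mul_one]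
      exact mul_ne_zero (zpow_ne_zero _ (rt_ne N)) (zpow_ne_zero _ (rt_ne N))
    have e5 : Eo N y x ≠ 0 := by
      unfold Eo irr
      dsimp only
      rw [if_pos hxy]
      have := x.2
      exact br_ne (by omega) (by omega)
    exact (mul_eq_zero.1 ((mul_eq_zero.1 hr).resolve_left e4)).resolve_left e5
  have main : ∀ d : ℕ, ∀ n : ℕ, ∀ c x : Fin N, (c : ℕ) = n → (x : ℕ) = n + d + 1 →
      ∀ a b, run N (rt N) pas (gc w c) [x, a, b] = 0 := by
    intro d
    induction d with
    | zero =>
      intro n
      induction n with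
      | zero =>
        intro c x hc hx
        refine step c x c (by omega) (fun a b => ?_) (fun c' h => by omega)
        have : ∀ q : Fin N × Fin N, EE N (a, b) q * run N (rt N) pas (gc w c) [c, q.1, q.2] =
            sg N s c * (EE N (a, b) q * w q) := by
          intro q
          rw [pas_eq hw]; ring
        rw [sum_congr rfl fun q _ => this q, ← mul_sum, hE, mul_zero]
      | succ n ih =>
        intro c x hc hx
        refine step c x c (by omega) (fun a b => ?_) (fun c' h => ih c' c (by omega) (by omega))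
        have : ∀ q : Fin N × Fin N, EE N (a, b) q * run N (rt N) pas (gc w c) [c, q.1, q.2] =
            sg N s c * (EE N (a, b) q * w q) := by
          intro q
          rw [pas_eq hw]; ring
        rw [sum_congr rfl fun q _ => this q, ← mul_sum, hE, mul_zero]
    | succ d ihd =>
      intro n
      induction n with
      | zero =>
        intro c x hc hx
        have hx' := x.2
        refine step c x ⟨x - 1, by omega⟩ (by simp only; omega) (fun a b => ?_)
          (fun c' h => by omega)
        refine sum_eq_zero fun q _ => ?_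
        rw [ihd 0 c _ hc (by simp only; omega), mul_zero]
      | succ n ih =>
        intro c x hc hx
        have hx' := x.2
        refine step c x ⟨x - 1, by omega⟩ (by simp only; omega) (fun a b => ?_)
          (fun c' h => ih c' _ (by omega) (by simp only; omega))
        refine sum_eq_zero fun q _ => ?_
        rw [ihd (n + 1) c _ hc (by simp only; omega), mul_zero]
  rcases lt_trichotomy (x : ℕ) c with h | h | h
  · rw [pas_lt w h, if_neg (by intro h1; rw [h1] at h; omega)]
  · have h1 : x = c := Fin.ext h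
    subst h1
    rw [if_pos rfl, pas_eq hw]
  · rw [if_neg (by intro h1; rw [h1] at h; omega)]
    exact main (x - c - 1) c c x rfl (by omega) a b

end Pool.Agent.H50B
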