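import Pool.Agent.H489K.Extra
import Pool.Agent.W193.QAT.R1
import Pool.Agent.W591.QAT.Reid
import Pool.Agent.W683.QAT.Slide

/-!
A circle around two parallel strands, as a tangle with two strands below and above.
-/

set_option autoImplicit false

namespace Pool.Agent.H50B

open Matrix Finset Pool.Agent.R807 Pool.Agent.H550R3.Jones Pool.Agent.W709.QAT Pool.Agent.H489K
open Pool.Agent.W715.VC (rt EE Eo Ko sh M1 M2)

/-- a circle around two strands, closed on the right, positive crossings -/
def ringP : Diag :=
  [.cup 2, .twist 1 true 1, .twist 0 true 1, .twist 0 true 1, .twist 1 true 1, .cap 2]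

/-- a circle around two strands, closed on the right, negative crossings -/
def ringN : Diag :=
  [.cup 2, .twist 1 false 1, .twist 0 false 1, .twist 0 false 1, .twist 1 false 1, .cap 2]

/-- a circle around two strands, closed on the left, positive crossings -/
def ringL : Diag :=
  [.cup 0, .twist 1 true 1, .twist 2 true 1, .twist 2 true 1, .twist 1 true 1, .cap 0]

/-- the matrix of the circle of positive crossings is a multiple of that of negative crossings -/
def TaskC : Prop := ∀ N : ℕ, 0 < N → ∃ c : ℂ, c ≠ 0 ∧ mat N ringP = c • mat N ringN

/-- symmetry under rotation about the vertical axis -/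
def TaskR : Prop := ∀ N : ℕ, 0 < N → ∀ p q : Fin N × Fin N,
  mat N ringL (Fin.rev p.2, Fin.rev p.1) (Fin.rev q.2, Fin.rev q.1) = mat N ringP p q

end Pool.Agent.H50B
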