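import Pool.Agent.H50B.A1
import Pool.Agent.H50B.Defs

/-!
A circle around two strands kills the vectors killed by `E`, for even `N`.
-/

set_option autoImplicit false

namespace Pool.Agent.H50B

open Matrix Finset Pool.Agent.R807 Pool.Agent.H550R3.Jones Pool.Agent.W709.QAT Pool.Agent.H489K
open Pool.Agent.W715.VC (rt EE Eo Ko sh M1 M2 adm rt_ne rt_zpow_N Eo_sum br_ne Eo_ne)
open Pool.Agent.W683.QAT (cP_diag cP_zero)

variable {N : ℕ}

/-- a function on pairs as a function on lists -/
noncomputable def wl (w : Fin N × Fin N → ℂ) : List (Fin N) → ℂ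
  | [a, b] => w (a, b)
  | _ => 0

lemma cup_off {x y : Fin N} (h : x ≠ y) : cup N (rt N) (x, Fin.rev y) = 0 := by
  by_contra h1
  have h2 := cup_wt h1
  simp only [Fin.val_rev] at h2
  have h3 := y.2
  exact h (Fin.ext (by omega))

lemma ring_one (hN : 0 < N) {w : Fin N × Fin N → ℂ} {s : ℕ}
    (hE : ∀ a b, ∑ q : Fin N × Fin N, EE N (a, b) q * w q = 0)
    (hw : ∀ p, w p ≠ 0 → (p.1 : ℕ) + p.2 = s) (x a b d : Fin N) :
    run N (rt N) pas ((Piece.cup 2).act N (rt N) (wl w)) [x, a, b, d] =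
      cup N (rt N) (x, d) * (sg N s x * w (a, b)) := by
  have h1 := run_right pas fits_pas ((Piece.cup 2).act N (rt N) (wl w)) [x, a, b] [d] rfl
  simp only [List.cons_append, List.nil_append] at h1
  rw [h1, run_local pas fits_pas (g := fun t => ∑ c, cup N (rt N) (c, d) * gc w c t) ?_ _ rfl, run_lin]
  · show ∑ c, cup N (rt N) (c, d) * run N (rt N) pas (gc w c) [x, a, b] = _
    rw [sum_eq_single x]
    · rw [pas_ker hN hE hw, if_pos rfl]
    · intro y _ hy
      rw [pas_ker hN hE hw, if_neg (Ne.symm hy), mul_zero]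
    · intro h; exact absurd (mem_univ _) h
  · intro t ht
    obtain ⟨u, v, y, rfl⟩ := List.length_eq_three.1 ht
    have h2 := act_cup (rt N) 2 (wl w) [u, v] y d [] rfl
    simp only [List.cons_append, List.nil_append] at h2 ⊢
    rw [h2, sum_eq_single y]
    · have h3 : gc w y [u, v, y] = w (u, v) := if_pos rfl
      rw [h3]
      rfl
    · intro z _ hz
      have h3 : gc w z [u, v, y] = 0 := if_neg (Ne.symm hz)
      rw [h3, mul_zero]
    · intro h; exact absurd (mem_univ _) h

lemma ring_val (hN : 0 < N) {w : Fin N × Fin N → ℂ} {s : ℕ}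
    (hE : ∀ a b, ∑ q : Fin N × Fin N, EE N (a, b) q * w q = 0)
    (hw : ∀ p, w p ≠ 0 → (p.1 : ℕ) + p.2 = s) (a b : Fin N) :
    run N (rt N) ringP (wl w) [a, b] =
      (∑ c : Fin N, (-1) ^ (N - 1) * rt N ^ ((N : ℤ) - 1 - 2 * (c : ℕ)) * sg N s c ^ 2) *
        w (a, b) := by
  set F2 := run N (rt N) pas ((Piece.cup 2).act N (rt N) (wl w)) with hF2
  set F3 := (Piece.twist 0 true 1).act N (rt N) F2 with hF3
  set F4 := (Piece.twist 1 true 1).act N (rt N) F3 with hF4
  have e0 : run N (rt N) ringP (wl w) [a, b] = (Piece.cap 2).act N (rt N) F4 [a, b] := rfl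
  have e2 : ∀ x a b d : Fin N, F2 [x, a, b, d] = cup N (rt N) (x, d) * (sg N s x * w (a, b)) :=
    fun x a b d => ring_one hN hE hw x a b d
  have e3 : ∀ x y z d : Fin N, F3 [x, y, z, d] =
      ∑ q : Fin N × Fin N, crossP N (rt N) (x, y) q * F2 [q.1, q.2, z, d] := by
    intro x y z d
    have h1 := act_twist 0 true 1 F2 [] x y [z, d] rfl
    simp only [List.nil_append, cr_one] at h1
    exact h1
  have e4 : ∀ x y z d : Fin N, F4 [x, y, z, d] =
      ∑ q : Fin N × Fin N, crossP N (rt N) (y, z) q * F3 [x, q.1, q.2, d] := by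
    intro x y z d
    have h1 := act_twist 1 true 1 F3 [x] y z [d] rfl
    simp only [List.cons_append, List.nil_append, cr_one] at h1
    exact h1
  have e5 := act_cap (rt N) 2 F4 [a, b] [] rfl
  simp only [List.cons_append, List.nil_append, List.append_nil] at e5
  rw [e0, e5, Fintype.sum_prod_type, sum_mul]
  refine sum_congr rfl fun c _ => ?_
  rw [cap_sum c (fun d => F4 [a, b, c, d])]
  have e6 : F4 [a, b, c, Fin.rev c] =
      sg N s c * (cup N (rt N) (c, Fin.rev c) * (sg N s c * w (a, b))) := by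
    rw [e4, sum_eq_single (c, b)]
    · rw [e3, sum_eq_single (c, a)]
      · simp only
        rw [e2]
        by_cases h : w (a, b) = 0
        · rw [h]; ring
        · have h2 := hw _ h
          simp only at h2
          rw [← mul_assoc]
          congr 1
          rw [cP_diag (adm N), cP_diag (adm N), ← zpow_add₀ (rt_ne N)]
          unfold sg
          congr 1
          rw [← h2]
          push_cast
          ring
      · intro q _ hq
        by_contra h1
        have h2 := cP_ne (left_ne_zero_of_mul h1)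
        rw [e2] at h1
        have h3 : q.1 = c := by
          by_contra h3
          exact (left_ne_zero_of_mul (right_ne_zero_of_mul h1)) (cup_off h3)
        simp only [h3] at h2
        exact hq (Prod.ext h3 (Fin.ext (show (q.2 : ℕ) = a by omega)))
      · intro h; exact absurd (mem_univ _) h
    · intro r _ hr
      by_contra h1
      have h2 := cP_ne (left_ne_zero_of_mul h1)
      have h3 := right_ne_zero_of_mul h1
      rw [e3] at h3
      obtain ⟨q, _, h4⟩ := exists_ne_zero_of_sum_ne_zero h3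
      have h5 := cP_ne (left_ne_zero_of_mul h4)
      rw [e2] at h4
      have h6 : q.1 = c := by
        by_contra h6
        exact (left_ne_zero_of_mul (right_ne_zero_of_mul h4)) (cup_off h6)
      simp only [h6] at h2 h5
      exact hr (Prod.ext (Fin.ext (show (r.1 : ℕ) = c by omega))
        (Fin.ext (show (r.2 : ℕ) = b by omega)))
    · intro h; exact absurd (mem_univ _) h
  rw [e6, ← kk_val]
  ring

/-- the sum of the scalars vanishes for even `N` -/
lemma sum_sc (hN : 0 < N) (hev : Even N) (s : ℕ) :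
    ∑ c : Fin N, (-1 : ℂ) ^ (N - 1) * rt N ^ ((N : ℤ) - 1 - 2 * (c : ℕ)) * sg N s c ^ 2 = 0 := by
  set z : ℂ := rt N ^ (4 * (s : ℤ) + 2 - 4 * N) with hz
  have h0 := rt_ne N
  have e1 : ∀ c : Fin N, (-1 : ℂ) ^ (N - 1) * rt N ^ ((N : ℤ) - 1 - 2 * (c : ℕ)) * sg N s c ^ 2 =
      (-1 : ℂ) ^ (N - 1) * rt N ^ ((N : ℤ) - 1 - 2 * ((N : ℤ) - 1) * (2 + s)) * z ^ (c : ℕ) := by
    intro c
    have g1 : sg N s c ^ 2 =
        rt N ^ (2 * (-((N : ℤ) - 1) * (2 + (s : ℤ) + 2 * (c : ℕ)) + 2 * (s : ℤ) * (c : ℕ))) := by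
      unfold sg
      rw [← zpow_natCast, ← _root_.zpow_mul]
      congr 1
      push_cast
      ring
    have g2 : z ^ (c : ℕ) = rt N ^ ((4 * (s : ℤ) + 2 - 4 * N) * (c : ℕ)) := by
      rw [hz, ← zpow_natCast, ← _root_.zpow_mul]
    have g3 : ∀ x y : ℤ, (-1 : ℂ) ^ (N - 1) * rt N ^ x * rt N ^ y =
        (-1 : ℂ) ^ (N - 1) * rt N ^ (x + y) := by
      intro x y
      rw [mul_assoc, ← zpow_add₀ h0]
    rw [g1, g2, g3, g3]
    congr 2
    ring
  rw [sum_congr rfl fun c _ => e1 c, ← mul_sum]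
  have e2 : ∑ c : Fin N, z ^ (c : ℕ) = 0 := by
    rw [Fin.sum_univ_eq_sum_range (fun c => z ^ c) N]
    obtain ⟨M, hM⟩ := hev
    have h1 : z ^ M = -1 := by
      rw [hz, ← zpow_natCast, ← _root_.zpow_mul]
      have : (4 * (s : ℤ) + 2 - 4 * N) * (M : ℕ) = N * (2 * ((s : ℤ) - N) + 1) := by
        have : (N : ℤ) = M + M := by exact_mod_cast hM
        rw [this]; ring
      rw [this, _root_.zpow_mul, rt_zpow_N hN]
      exact Odd.neg_one_zpow ⟨_, rfl⟩
    have h2 : z ≠ 1 := by
      intro h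
      rw [h, one_pow] at h1
      norm_num at h1
    have h3 : z ^ N = 1 := by
      rw [hM, pow_add, h1]; norm_num
    have h4 := geom_sum_mul z N
    rw [h3, sub_self] at h4
    exact (mul_eq_zero.1 h4).resolve_right (sub_ne_zero.2 h2)
  rw [e2, mul_zero]

/-- **a circle around two strands kills the vectors killed by `E`** -/
theorem ring_kills (hN : 0 < N) (hev : Even N) {w : Fin N × Fin N → ℂ} {s : ℕ}
    (hE : ∀ a b, ∑ q : Fin N × Fin N, EE N (a, b) q * w q = 0)
    (hw : ∀ p, w p ≠ 0 → (p.1 : ℕ) + p.2 = s) (p : Fin N × Fin N) :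
    ∑ q : Fin N × Fin N, mat N ringP p q * w q = 0 := by
  have h1 := run_mat (N := N) ringP rfl (wl w) p
  have h2 := ring_val hN hE hw p.1 p.2
  rw [sum_sc hN hev, zero_mul] at h2
  rw [h2] at h1
  exact h1.symm

end Pool.Agent.H50B
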