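import Pool.Agent.H50B.A2

/-!
The first family of characters vanishes on the circle around two strands, for even `N`.
-/

set_option autoImplicit false

namespace Pool.Agent.H50B

open Matrix Finset Pool.Agent.R807 Pool.Agent.H550R3.Jones Pool.Agent.W709.QAT Pool.Agent.H489K
open Pool.Agent.W715.VC (rt EE Eo Ko sh M1 M2)

variable {N : ℕ}

/-- the difference of the traces is the eigenvalue on the kernel -/
lemma chi_key {m n : Type} [Fintype m] [Fintype n] [DecidableEq m] [DecidableEq n]
    {E : Matrix m n ℂ} {R : Matrix n m ℂ} (hR : E * R = 1) {w : n → ℂ} {i0 : n} (hw0 : w i0 = 1)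
    (hw : E *ᵥ w = 0)
    (hker : ∀ x : n → ℂ, E *ᵥ x = 0 → x = x i0 • w) {A : Matrix n n ℂ} {A' : Matrix m m ℂ}
    (h : E * A = A' * E) :
    A *ᵥ w = (A.trace - A'.trace) • w := by
  obtain ⟨φ, hφ⟩ : ∃ φ : n → ℂ, (1 : Matrix n n ℂ) - R * E = vecMulVec w φ := by
    set Q : Matrix n n ℂ := (1 : Matrix n n ℂ) - R * E with hQ
    refine ⟨fun j => Q i0 j, ?_⟩
    ext i j
    have h1 : E *ᵥ (fun i => Q i j) = 0 := by
      have h2 : E * Q = 0 := by
        rw [hQ, Matrix.mul_sub, Matrix.mul_one, ← Matrix.mul_assoc, hR, Matrix.one_mul, sub_self]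
      funext k
      have := congrFun (congrFun h2 k) j
      exact this
    have h3 := congrFun (hker _ h1) i
    rw [vecMulVec_apply]
    simp only [Pi.smul_apply, smul_eq_mul] at h3
    rw [h3, mul_comm]
  have h1 : E *ᵥ (A *ᵥ w) = 0 := by
    rw [mulVec_mulVec, h, ← mulVec_mulVec, hw, mulVec_zero]
  have h2 := hker _ h1
  have h3 : A.trace - A'.trace = (A *ᵥ w) i0 := by
    have e1 : A = A * (vecMulVec w φ) + A * (R * E) := by
      rw [← hφ, ← mul_add]
      simp
    have e2 : (A * (R * E)).trace = A'.trace := by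
      rw [← Matrix.mul_assoc, Matrix.trace_mul_comm, ← Matrix.mul_assoc, h, Matrix.mul_assoc,
        hR, Matrix.mul_one]
    have e3 : (A * vecMulVec w φ).trace = (A *ᵥ w) i0 * (φ ⬝ᵥ w) := by
      rw [Matrix.mul_vecMulVec, Matrix.trace_vecMulVec, h2, smul_dotProduct, smul_eq_mul]
      simp only [Pi.smul_apply, smul_eq_mul, hw0, mul_one]
      rw [dotProduct_comm]
    have e4 : φ ⬝ᵥ w = 1 := by
      have h5 : (1 - R * E) *ᵥ w = w := by
        rw [sub_mulVec, one_mulVec, ← mulVec_mulVec, hw, mulVec_zero, sub_zero]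
      rw [hφ] at h5
      have h6 := congrFun h5 i0
      rw [vecMulVec_mulVec] at h6
      simp only [Pi.smul_apply, hw0] at h6
      simpa [hw0] using h6
    rw [e4, mul_one] at e3
    rw [← e3, ← e2]
    nth_rewrite 1 [e1]
    rw [Matrix.trace_add]
    ring
  rw [h3]
  exact h2

/-- a good operator which kills the vectors killed by `E` has equal traces on neighbouring weight
spaces -/
theorem T1_kills {A : M2 N} (hA : Good A)
    (hk : ∀ (w : Fin N × Fin N → ℂ) (s : ℕ),
      (∀ a b, ∑ q : Fin N × Fin N, EE N (a, b) q * w q = 0) →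
      (∀ p, w p ≠ 0 → (p.1 : ℕ) + p.2 = s) → ∀ p, ∑ q : Fin N × Fin N, A p q * w q = 0)
    {s : ℕ} (h : s + 1 ≤ N) : T1 A (s + 1) - T1 A s = 0 := by
  have h' : s ≤ N := by omega
  obtain ⟨⟨R, hR⟩, w, hw0, hw, hker⟩ := bidiag' ((EE N).submatrix (ix h') (ix h)) (by
    intro i j hij
    rcases EE_sup hij with ⟨h1, -⟩ | ⟨h1, -⟩
    · left
      exact Fin.ext h1
    · right
      have h2 : (j : ℕ) = (i : ℕ) := congrArg (fun x : Fin N => (x : ℕ)) h1
      exact Fin.ext h2) (by
    intro i
    apply EE_nz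
    · rfl
    · apply Fin.ext
      show s + 1 - 1 - ((i : ℕ) + 1) = s - 1 - i
      omega)
  have comm : (EE N).submatrix (ix h') (ix h) * A.submatrix (ix h) (ix h) =
      A.submatrix (ix h') (ix h') * (EE N).submatrix (ix h') (ix h) := by
    rw [← sub_ix' (EE N) hA.2 h, ← hA.1, sub_ix hA.2]
  have key := chi_key hR hw0 hw hker comm
  rw [T1_eq, T1_eq] at key
  -- the extension of `w` by zero
  set v : Fin N × Fin N → ℂ := fun p =>
    if hp : (p.1 : ℕ) + p.2 = s then w ⟨p.1, by omega⟩ else 0 with hv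
  have hvw : ∀ a : Fin (s + 1), v (ix h a) = w a := by
    intro a
    have h1 : ((ix h a).1 : ℕ) + (ix h a).2 = s := ix_wt h a
    rw [hv]
    simp only
    rw [dif_pos h1]
    rfl
  have hvs : ∀ p, v p ≠ 0 → (p.1 : ℕ) + p.2 = s := by
    intro p hp
    by_contra h1
    apply hp
    rw [hv]
    simp only
    rw [dif_neg h1]
  have hsum : ∀ g : Fin N × Fin N → ℂ, ∑ q, g q * v q = ∑ a, g (ix h a) * w a := by
    intro g
    rw [fiber (ix_inj h) (ix_range h) (fun q => g q * v q)
      (fun q hq => hvs q (right_ne_zero_of_mul hq))]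
    exact sum_congr rfl fun a _ => by rw [hvw]
  have hE : ∀ a b, ∑ q : Fin N × Fin N, EE N (a, b) q * v q = 0 := by
    intro a b
    by_cases hab : (a : ℕ) + b + 1 = s
    · rw [hsum]
      have h1 := congrFun hw ⟨a, by omega⟩
      rw [Matrix.mulVec, dotProduct, Pi.zero_apply] at h1
      rw [← h1]
      refine sum_congr rfl fun x _ => ?_
      rw [Matrix.submatrix_apply]
      congr 2
      apply Prod.ext
      · rfl
      · apply Fin.ext
        show (b : ℕ) = s - 1 - a
        omega
    · refine sum_eq_zero fun q _ => ?_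
      by_contra h1
      have h2 := hvs q (right_ne_zero_of_mul h1)
      rcases EE_sup (left_ne_zero_of_mul h1) with ⟨h3, h4⟩ | ⟨h3, h4⟩
      · simp only at h3 h4
        rw [h4] at h2
        omega
      · simp only at h3 h4
        rw [h3] at h2
        omega
  have h1 := hk v s hE hvs (ix h 0)
  rw [hsum] at h1
  have h2 := congrFun key 0
  rw [Matrix.mulVec, dotProduct] at h2
  simp only [Matrix.submatrix_apply, Pi.smul_apply, smul_eq_mul, hw0, mul_one] at h2
  rw [← h2]
  exact h1

lemma fits_ringP : Fits ringP 2 2 := rfl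

/-- **the first family of characters** -/
theorem chr_inl (hN : 0 < N) (hev : Even N) (k : Σ s : Fin N, Fin (s + 1)) :
    chr N (.inl k) (mat N ringP) = 0 := by
  obtain ⟨s, r⟩ := k
  show T1 (mat N ringP) ((r : ℕ) + 1) - T1 (mat N ringP) r = 0
  refine T1_kills (mat_good hN fits_ringP) (fun w t hE hw p => ring_kills hN hev hE hw p) ?_
  have := r.2
  have := s.2
  omega

end Pool.Agent.H50B
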