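import Pool.Agent.H489K.Extra
import Pool.Agent.W193.QAT.R1
import Pool.Agent.W591.QAT.Reid
import Pool.Agent.W683.QAT.Slide

set_option autoImplicit false

namespace Pool.Agent.H50B.JC

open Matrix Finset Pool.Agent.R807 Pool.Agent.H550R3.Jones Pool.Agent.W709.QAT Pool.Agent.H489K
open Pool.Agent.W715.VC (rt EE Eo Ko sh M1 M2 rt_ne br_ne)

variable {N : ℕ}

/-- two diagrams with proportional operators -/
def Sim (N n k : ℕ) (D E : Diag) : Prop := ∃ c : ℂ, c ≠ 0 ∧ Fits D n k ∧ Fits E n k ∧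
  ∀ (f : List (Fin N) → ℂ) (s : List (Fin N)), s.length = k →
    run N (rt N) D f s = c * run N (rt N) E f s

lemma Sim.symm {n k : ℕ} {D E : Diag} (h : Sim N n k D E) : Sim N n k E D := by
  obtain ⟨c, h0, h1, h2, h3⟩ := h
  refine ⟨c⁻¹, inv_ne_zero h0, h2, h1, fun f s hs => ?_⟩
  rw [h3 f s hs, ← mul_assoc, inv_mul_cancel₀ h0, one_mul]

lemma Sim.trans {n k : ℕ} {D E F : Diag} (h : Sim N n k D E) (h' : Sim N n k E F) :
    Sim N n k D F := by
  obtain ⟨c, h0, h1, h2, h3⟩ := h
  obtain ⟨c', h0', h1', h2', h3'⟩ := h'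
  refine ⟨c * c', mul_ne_zero h0 h0', h1, h2', fun f s hs => ?_⟩
  rw [h3 f s hs, h3' f s hs, mul_assoc]

lemma fits_app {D E : Diag} {n m k : ℕ} (h : Fits D n m) (h' : Fits E m k) :
    Fits (D ++ E) n k := by
  unfold Fits at h h' ⊢
  rw [List.foldl_append, h, h']

lemma run_smul (D : Diag) (c : ℂ) (f : List (Fin N) → ℂ) (s : List (Fin N)) :
    run N (rt N) D (fun t => c * f t) s = c * run N (rt N) D f s := by
  have h := congrFun (run_lin (rt N) D (univ : Finset Unit) (fun _ => c) (fun _ => f)) s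
  simpa using h

lemma Sim.mid {n k m l : ℕ} {D E : Diag} (A B : Diag) (h : Sim N n k D E) (hA : Fits A m n)
    (hB : Fits B k l) : Sim N m l (A ++ (D ++ B)) (A ++ (E ++ B)) := by
  obtain ⟨c, h0, h1, h2, h3⟩ := h
  refine ⟨c, h0, fits_app hA (fits_app h1 hB), fits_app hA (fits_app h2 hB), fun f s hs => ?_⟩
  simp only [run_append]
  rw [run_local B hB (fun t ht => h3 (run N (rt N) A f) t ht) s hs, run_smul]

lemma br_h : ∀ k : ℕ, 0 < k → k < N → br (rt N) k ≠ 0 := fun k h0 h1 => br_ne (by omega) (by omega)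

lemma run_nil (v : ℂ) (f : List (Fin N) → ℂ) (s : List (Fin N)) : run N v [] f s = f s := rfl

lemma r2 (N : ℕ) (σ : Bool) {n i : ℕ} (hi : i + 2 ≤ n) :
    Sim N n n [.twist i σ 1, .twist i (!σ) 1] [] := by
  refine ⟨1, one_ne_zero, ?_, rfl, fun f s hs => ?_⟩
  · simp [Fits, Piece.strands, hi]
  · have h := (Pool.Agent.W591.QAT.reid N (rt N) (rt_ne N) br_h f i s).1 (by omega)
    rw [one_mul, run_nil]
    cases σ
    · exact h.2
    · exact h.1

lemma r3 (N : ℕ) {n i : ℕ} (hi : i + 3 ≤ n) :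
    Sim N n n [.twist i true 1, .twist (i + 1) true 1, .twist i true 1]
      [.twist (i + 1) true 1, .twist i true 1, .twist (i + 1) true 1] := by
  refine ⟨1, one_ne_zero, ?_, ?_, fun f s hs => ?_⟩
  · simp [Fits, Piece.strands, show i + 2 ≤ n by omega, show i + 1 + 2 ≤ n by omega]
  · simp [Fits, Piece.strands, show i + 2 ≤ n by omega, show i + 1 + 2 ≤ n by omega]
  · rw [one_mul]
    exact (Pool.Agent.W591.QAT.reid N (rt N) (rt_ne N) br_h f i s).2 (by omega)

lemma far (N : ℕ) (σ τ : Bool) :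
    Sim N 4 4 [.twist 2 σ 1, .twist 0 τ 1] [.twist 0 τ 1, .twist 2 σ 1] := by
  refine ⟨1, one_ne_zero, rfl, rfl, fun f s hs => ?_⟩
  obtain ⟨a, b, c, d, rfl⟩ : ∃ a b c d : Fin N, s = [a, b, c, d] := by
    match s, hs with
    | [a, b, c, d], _ => exact ⟨a, b, c, d, rfl⟩
  rw [one_mul]
  have e0 : ∀ (g : List (Fin N) → ℂ) (a b c d : Fin N),
      (Piece.twist 0 τ 1).act N (rt N) g [a, b, c, d] =
        ∑ p : Fin N × Fin N, (cr N τ ^ 1) (a, b) p * g [p.1, p.2, c, d] := fun g a b c d =>
    act_twist 0 τ 1 g [] a b [c, d] rfl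
  have e2 : ∀ (g : List (Fin N) → ℂ) (a b c d : Fin N),
      (Piece.twist 2 σ 1).act N (rt N) g [a, b, c, d] =
        ∑ p : Fin N × Fin N, (cr N σ ^ 1) (c, d) p * g [a, b, p.1, p.2] := fun g a b c d =>
    act_twist 2 σ 1 g [a, b] c d [] rfl
  change (Piece.twist 0 τ 1).act N (rt N) ((Piece.twist 2 σ 1).act N (rt N) f) [a, b, c, d] =
    (Piece.twist 2 σ 1).act N (rt N) ((Piece.twist 0 τ 1).act N (rt N) f) [a, b, c, d]
  rw [e0, e2]
  simp only [e0, e2, mul_sum]
  rw [sum_comm]
  refine sum_congr rfl fun p _ => sum_congr rfl fun q _ => ?_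
  ring

lemma ct_ne (σ : Bool) : Pool.Agent.W683.QAT.ct N (rt N) σ ≠ 0 := by
  unfold Pool.Agent.W683.QAT.ct Pool.Agent.W683.QAT.cst
  have h := rt_ne N
  split_ifs
  · exact zpow_ne_zero _ h
  · exact inv_ne_zero (zpow_ne_zero _ h)

/-- the cup on the right -/
lemma cup2 (N : ℕ) (σ : Bool) : Sim N 2 4 [.cup 2]
    [.cup 0, .twist 1 σ 1, .twist 0 σ 1, .twist 2 σ 1, .twist 1 σ 1] := by
  have h1 : Sim N 2 4 [.cup 0, .twist 1 σ 1, .twist 0 σ 1] [.cup 1] :=
    ⟨_, ct_ne σ, rfl, rfl, fun f s hs =>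
      ((Pool.Agent.W683.QAT.slide_all N (rt N) (rt_ne N) br_h f 0 s σ).1 (by omega)).2⟩
  have h2 : Sim N 2 4 [.cup 1, .twist 2 σ 1, .twist 1 σ 1] [.cup 2] :=
    ⟨_, ct_ne σ, rfl, rfl, fun f s hs =>
      ((Pool.Agent.W683.QAT.slide_all N (rt N) (rt_ne N) br_h f 1 s σ).1 (by omega)).2⟩
  exact (h1.mid [] [.twist 2 σ 1, .twist 1 σ 1] rfl rfl |>.trans h2).symm

/-- curls -/
lemma curl_cup (N : ℕ) (hN : 0 < N) : Sim N 2 4 [.cup 0, .twist 0 false 1] [.cup 0] := by
  refine ⟨_, ?_, rfl, rfl, fun f s hs =>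
    Pool.Agent.W193.QAT.r1n N (rt N) (rt_ne N) br_h hN f 0 s (by omega)⟩
  exact mul_ne_zero (pow_ne_zero _ (by norm_num)) (zpow_ne_zero _ (rt_ne N))

lemma curl_cap (N : ℕ) (hN : 0 < N) : Sim N 4 2 [.twist 2 true 1, .cap 2] [.cap 2] := by
  refine ⟨_, ?_, rfl, rfl, fun f s hs =>
    Pool.Agent.W193.QAT.r1c N (rt N) (rt_ne N) br_h hN f 2 s (by omega)⟩
  exact mul_ne_zero (pow_ne_zero _ (by norm_num)) (zpow_ne_zero _ (rt_ne N))

/-- the positive circle -/
lemma ringP (N : ℕ) : Sim N 2 2
    [.cup 2, .twist 1 true 1, .twist 0 true 1, .twist 0 true 1, .twist 1 true 1, .cap 2]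
    [.cup 0, .twist 1 false 1, .twist 0 true 1, .twist 2 false 1, .twist 1 true 1, .cap 2] := by
  have a1 : Sim N 2 2
      [.cup 2, .twist 1 true 1, .twist 0 true 1, .twist 0 true 1, .twist 1 true 1, .cap 2]
      [.cup 0, .twist 1 false 1, .twist 0 false 1, .twist 2 false 1, .twist 1 false 1,
        .twist 1 true 1, .twist 0 true 1, .twist 0 true 1, .twist 1 true 1, .cap 2] :=
    (cup2 N false).mid []
      [.twist 1 true 1, .twist 0 true 1, .twist 0 true 1, .twist 1 true 1, .cap 2] rfl rfl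
  have a2 : Sim N 2 2
      [.cup 0, .twist 1 false 1, .twist 0 false 1, .twist 2 false 1, .twist 1 false 1,
        .twist 1 true 1, .twist 0 true 1, .twist 0 true 1, .twist 1 true 1, .cap 2]
      [.cup 0, .twist 1 false 1, .twist 0 false 1, .twist 2 false 1,
        .twist 0 true 1, .twist 0 true 1, .twist 1 true 1, .cap 2] :=
    (r2 N false (n := 4) (i := 1) (by norm_num)).mid
      [.cup 0, .twist 1 false 1, .twist 0 false 1, .twist 2 false 1]
      [.twist 0 true 1, .twist 0 true 1, .twist 1 true 1, .cap 2] rfl rfl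
  have a3 : Sim N 2 2
      [.cup 0, .twist 1 false 1, .twist 0 false 1, .twist 2 false 1,
        .twist 0 true 1, .twist 0 true 1, .twist 1 true 1, .cap 2]
      [.cup 0, .twist 1 false 1, .twist 0 false 1, .twist 0 true 1, .twist 2 false 1,
        .twist 0 true 1, .twist 1 true 1, .cap 2] :=
    (far N false true).mid [.cup 0, .twist 1 false 1, .twist 0 false 1]
      [.twist 0 true 1, .twist 1 true 1, .cap 2] rfl rfl
  have a4 : Sim N 2 2
      [.cup 0, .twist 1 false 1, .twist 0 false 1, .twist 0 true 1, .twist 2 false 1,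
        .twist 0 true 1, .twist 1 true 1, .cap 2]
      [.cup 0, .twist 1 false 1, .twist 2 false 1, .twist 0 true 1, .twist 1 true 1, .cap 2] :=
    (r2 N false (n := 4) (i := 0) (by norm_num)).mid [.cup 0, .twist 1 false 1]
      [.twist 2 false 1, .twist 0 true 1, .twist 1 true 1, .cap 2] rfl rfl
  have a5 : Sim N 2 2
      [.cup 0, .twist 1 false 1, .twist 2 false 1, .twist 0 true 1, .twist 1 true 1, .cap 2]
      [.cup 0, .twist 1 false 1, .twist 0 true 1, .twist 2 false 1, .twist 1 true 1, .cap 2] :=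
    (far N false true).mid [.cup 0, .twist 1 false 1] [.twist 1 true 1, .cap 2] rfl rfl
  exact a1.trans (a2.trans (a3.trans (a4.trans a5)))

/-- the negative circle -/
lemma ringN (N : ℕ) : Sim N 2 2
    [.cup 2, .twist 1 false 1, .twist 0 false 1, .twist 0 false 1, .twist 1 false 1, .cap 2]
    [.cup 0, .twist 1 true 1, .twist 0 false 1, .twist 2 true 1, .twist 1 false 1, .cap 2] := by
  have a1 : Sim N 2 2
      [.cup 2, .twist 1 false 1, .twist 0 false 1, .twist 0 false 1, .twist 1 false 1, .cap 2]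
      [.cup 0, .twist 1 true 1, .twist 0 true 1, .twist 2 true 1, .twist 1 true 1,
        .twist 1 false 1, .twist 0 false 1, .twist 0 false 1, .twist 1 false 1, .cap 2] :=
    (cup2 N true).mid []
      [.twist 1 false 1, .twist 0 false 1, .twist 0 false 1, .twist 1 false 1, .cap 2] rfl rfl
  have a2 : Sim N 2 2
      [.cup 0, .twist 1 true 1, .twist 0 true 1, .twist 2 true 1, .twist 1 true 1,
        .twist 1 false 1, .twist 0 false 1, .twist 0 false 1, .twist 1 false 1, .cap 2]
      [.cup 0, .twist 1 true 1, .twist 0 true 1, .twist 2 true 1,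
        .twist 0 false 1, .twist 0 false 1, .twist 1 false 1, .cap 2] :=
    (r2 N true (n := 4) (i := 1) (by norm_num)).mid
      [.cup 0, .twist 1 true 1, .twist 0 true 1, .twist 2 true 1]
      [.twist 0 false 1, .twist 0 false 1, .twist 1 false 1, .cap 2] rfl rfl
  have a3 : Sim N 2 2
      [.cup 0, .twist 1 true 1, .twist 0 true 1, .twist 2 true 1,
        .twist 0 false 1, .twist 0 false 1, .twist 1 false 1, .cap 2]
      [.cup 0, .twist 1 true 1, .twist 0 true 1, .twist 0 false 1, .twist 2 true 1,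
        .twist 0 false 1, .twist 1 false 1, .cap 2] :=
    (far N true false).mid [.cup 0, .twist 1 true 1, .twist 0 true 1]
      [.twist 0 false 1, .twist 1 false 1, .cap 2] rfl rfl
  have a4 : Sim N 2 2
      [.cup 0, .twist 1 true 1, .twist 0 true 1, .twist 0 false 1, .twist 2 true 1,
        .twist 0 false 1, .twist 1 false 1, .cap 2]
      [.cup 0, .twist 1 true 1, .twist 2 true 1, .twist 0 false 1, .twist 1 false 1, .cap 2] :=
    (r2 N true (n := 4) (i := 0) (by norm_num)).mid [.cup 0, .twist 1 true 1]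
      [.twist 2 true 1, .twist 0 false 1, .twist 1 false 1, .cap 2] rfl rfl
  have a5 : Sim N 2 2
      [.cup 0, .twist 1 true 1, .twist 2 true 1, .twist 0 false 1, .twist 1 false 1, .cap 2]
      [.cup 0, .twist 1 true 1, .twist 0 false 1, .twist 2 true 1, .twist 1 false 1, .cap 2] :=
    (far N true false).mid [.cup 0, .twist 1 true 1] [.twist 1 false 1, .cap 2] rfl rfl
  exact a1.trans (a2.trans (a3.trans (a4.trans a5)))

/-- braids -/
lemma brA (N : ℕ) : Sim N 4 4 [.twist 0 false 1, .twist 1 false 1, .twist 0 true 1]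
    [.twist 1 true 1, .twist 0 false 1, .twist 1 false 1] := by
  have a1 : Sim N 4 4
      [.twist 0 false 1, .twist 1 false 1, .twist 0 true 1, .twist 1 true 1, .twist 1 false 1]
      [.twist 0 false 1, .twist 1 false 1, .twist 0 true 1] :=
    (r2 N true (n := 4) (i := 1) (by norm_num)).mid
      [.twist 0 false 1, .twist 1 false 1, .twist 0 true 1] [] rfl rfl
  have a2 : Sim N 4 4
      [.twist 0 false 1, .twist 1 false 1, .twist 0 true 1, .twist 1 true 1, .twist 0 true 1,
        .twist 0 false 1, .twist 1 false 1]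
      [.twist 0 false 1, .twist 1 false 1, .twist 0 true 1, .twist 1 true 1, .twist 1 false 1] :=
    (r2 N true (n := 4) (i := 0) (by norm_num)).mid
      [.twist 0 false 1, .twist 1 false 1, .twist 0 true 1, .twist 1 true 1]
      [.twist 1 false 1] rfl rfl
  have a3 : Sim N 4 4
      [.twist 0 false 1, .twist 1 false 1, .twist 0 true 1, .twist 1 true 1, .twist 0 true 1,
        .twist 0 false 1, .twist 1 false 1]
      [.twist 0 false 1, .twist 1 false 1, .twist 1 true 1, .twist 0 true 1, .twist 1 true 1,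
        .twist 0 false 1, .twist 1 false 1] :=
    (r3 N (n := 4) (i := 0) (by norm_num)).mid [.twist 0 false 1, .twist 1 false 1]
      [.twist 0 false 1, .twist 1 false 1] rfl rfl
  have a4 : Sim N 4 4
      [.twist 0 false 1, .twist 1 false 1, .twist 1 true 1, .twist 0 true 1, .twist 1 true 1,
        .twist 0 false 1, .twist 1 false 1]
      [.twist 0 false 1, .twist 0 true 1, .twist 1 true 1, .twist 0 false 1, .twist 1 false 1] :=
    (r2 N false (n := 4) (i := 1) (by norm_num)).mid [.twist 0 false 1]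
      [.twist 0 true 1, .twist 1 true 1, .twist 0 false 1, .twist 1 false 1] rfl rfl
  have a5 : Sim N 4 4
      [.twist 0 false 1, .twist 0 true 1, .twist 1 true 1, .twist 0 false 1, .twist 1 false 1]
      [.twist 1 true 1, .twist 0 false 1, .twist 1 false 1] :=
    (r2 N false (n := 4) (i := 0) (by norm_num)).mid []
      [.twist 1 true 1, .twist 0 false 1, .twist 1 false 1] rfl rfl
  exact a1.symm.trans (a2.symm.trans (a3.trans (a4.trans a5)))

lemma brB (N : ℕ) : Sim N 4 4 [.twist 2 false 1, .twist 1 true 1, .twist 2 true 1]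
    [.twist 1 true 1, .twist 2 true 1, .twist 1 false 1] := by
  have a1 : Sim N 4 4
      [.twist 2 false 1, .twist 1 true 1, .twist 2 true 1, .twist 1 true 1, .twist 1 false 1]
      [.twist 2 false 1, .twist 1 true 1, .twist 2 true 1] :=
    (r2 N true (n := 4) (i := 1) (by norm_num)).mid
      [.twist 2 false 1, .twist 1 true 1, .twist 2 true 1] [] rfl rfl
  have a2 : Sim N 4 4
      [.twist 2 false 1, .twist 1 true 1, .twist 2 true 1, .twist 1 true 1, .twist 1 false 1]
      [.twist 2 false 1, .twist 2 true 1, .twist 1 true 1, .twist 2 true 1, .twist 1 false 1] :=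
    (r3 N (n := 4) (i := 1) (by norm_num)).mid [.twist 2 false 1] [.twist 1 false 1] rfl rfl
  have a3 : Sim N 4 4
      [.twist 2 false 1, .twist 2 true 1, .twist 1 true 1, .twist 2 true 1, .twist 1 false 1]
      [.twist 1 true 1, .twist 2 true 1, .twist 1 false 1] :=
    (r2 N false (n := 4) (i := 2) (by norm_num)).mid []
      [.twist 1 true 1, .twist 2 true 1, .twist 1 false 1] rfl rfl
  exact a1.symm.trans (a2.trans a3)

lemma ring (N : ℕ) (hN : 0 < N) : Sim N 2 2
    [.cup 2, .twist 1 true 1, .twist 0 true 1, .twist 0 true 1, .twist 1 true 1, .cap 2]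
    [.cup 2, .twist 1 false 1, .twist 0 false 1, .twist 0 false 1, .twist 1 false 1, .cap 2] := by
  have a1 : Sim N 2 2
      [.cup 0, .twist 0 false 1, .twist 1 false 1, .twist 0 true 1, .twist 2 false 1,
        .twist 1 true 1, .twist 2 true 1, .cap 2]
      [.cup 0, .twist 1 true 1, .twist 0 false 1, .twist 1 false 1, .twist 2 false 1,
        .twist 1 true 1, .twist 2 true 1, .cap 2] :=
    (brA N).mid [.cup 0] [.twist 2 false 1, .twist 1 true 1, .twist 2 true 1, .cap 2] rfl rfl
  have a2 : Sim N 2 2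
      [.cup 0, .twist 1 true 1, .twist 0 false 1, .twist 1 false 1, .twist 2 false 1,
        .twist 1 true 1, .twist 2 true 1, .cap 2]
      [.cup 0, .twist 1 true 1, .twist 0 false 1, .twist 1 false 1, .twist 1 true 1,
        .twist 2 true 1, .twist 1 false 1, .cap 2] :=
    (brB N).mid [.cup 0, .twist 1 true 1, .twist 0 false 1, .twist 1 false 1] [.cap 2] rfl rfl
  have a3 : Sim N 2 2
      [.cup 0, .twist 1 true 1, .twist 0 false 1, .twist 1 false 1, .twist 1 true 1,
        .twist 2 true 1, .twist 1 false 1, .cap 2]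
      [.cup 0, .twist 1 true 1, .twist 0 false 1, .twist 2 true 1, .twist 1 false 1, .cap 2] :=
    (r2 N false (n := 4) (i := 1) (by norm_num)).mid [.cup 0, .twist 1 true 1, .twist 0 false 1]
      [.twist 2 true 1, .twist 1 false 1, .cap 2] rfl rfl
  have a4 : Sim N 2 2
      [.cup 0, .twist 0 false 1, .twist 1 false 1, .twist 0 true 1, .twist 2 false 1,
        .twist 1 true 1, .twist 2 true 1, .cap 2]
      [.cup 0, .twist 1 false 1, .twist 0 true 1, .twist 2 false 1,
        .twist 1 true 1, .twist 2 true 1, .cap 2] :=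
    (curl_cup N hN).mid [] [.twist 1 false 1, .twist 0 true 1, .twist 2 false 1,
        .twist 1 true 1, .twist 2 true 1, .cap 2] rfl rfl
  have a5 : Sim N 2 2
      [.cup 0, .twist 1 false 1, .twist 0 true 1, .twist 2 false 1,
        .twist 1 true 1, .twist 2 true 1, .cap 2]
      [.cup 0, .twist 1 false 1, .twist 0 true 1, .twist 2 false 1, .twist 1 true 1, .cap 2] :=
    (curl_cap N hN).mid [.cup 0, .twist 1 false 1, .twist 0 true 1, .twist 2 false 1,
        .twist 1 true 1] [] rfl rfl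
  exact (ringP N).trans (a5.symm.trans (a4.symm.trans (a1.trans (a2.trans (a3.trans
    (ringN N).symm)))))

/-- the matrix of the circle of positive crossings is a multiple of that of negative crossings -/
theorem taskC (N : ℕ) (hN : 0 < N) : ∃ c : ℂ, c ≠ 0 ∧
    mat N [.cup 2, .twist 1 true 1, .twist 0 true 1, .twist 0 true 1, .twist 1 true 1, .cap 2] =
      c • mat N [.cup 2, .twist 1 false 1, .twist 0 false 1, .twist 0 false 1, .twist 1 false 1,
        .cap 2] := by
  obtain ⟨c, h0, -, -, h3⟩ := ring N hN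
  refine ⟨c, h0, ?_⟩
  ext p q
  rw [Matrix.smul_apply, smul_eq_mul]
  exact h3 (dl q) [p.1, p.2] rfl

end Pool.Agent.H50B.JC
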