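import Pool.Agent.H489K.Extra

set_option autoImplicit false

namespace Pool.Agent.H50B.JP

open Finset Pool.Agent.W715.VC

theorem jp_dvd (N : ℕ) (hN : 0 < N) (m : ℤ) (h : rt N ^ m = 1) : (N : ℤ) ∣ m := by
  rw [rt_zpow, Complex.exp_eq_one_iff] at h
  obtain ⟨n, hn⟩ := h
  have h2 : (Real.pi * m / N : ℝ) = n * (2 * Real.pi) := by
    have h3 := congrArg Complex.im hn
    have h4 : (((Real.pi * m / N : ℝ) : ℂ) * Complex.I).im = Real.pi * m / N := by
      rw [Complex.im_ofReal_mul, Complex.I_im, mul_one]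
    have h5 : ((n : ℂ) * (2 * (Real.pi : ℂ) * Complex.I)).im = (n : ℝ) * (2 * Real.pi) := by
      simp
    rw [h4, h5] at h3
    exact h3
  have hN' : (N : ℝ) ≠ 0 := by exact_mod_cast hN.ne'
  refine ⟨2 * n, ?_⟩
  have h4 : (m : ℝ) = N * (2 * n) := by
    have hpi := Real.pi_pos.ne'
    rw [div_eq_iff hN'] at h2
    have h5 : Real.pi * (m : ℝ) = Real.pi * (N * (2 * n)) := by rw [h2]; ring
    exact mul_left_cancel₀ hpi h5
  exact_mod_cast h4

theorem jp_geom (N : ℕ) (w : ℂ) (h1 : w ≠ 1) (h2 : w ^ (2 * N) = 1) :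
    ∑ k ∈ range (2 * N), w ^ k = 0 := by
  rw [geom_sum_eq h1, h2, sub_self, zero_div]

theorem taskP (N : ℕ) (hp : N.Prime) (h2 : 2 < N) (f : ℕ → ℂ) (hf : ∀ s < N, f (N - 1 - s) = f s) :
    2 * (N : ℝ) * ∑ s ∈ Finset.range N, ‖f s‖ ^ 2 ≤
      ∑ k ∈ Finset.range (2 * N), ‖∑ s ∈ Finset.range N, f s * (rt N ^ ((s : ℤ) * ((s : ℤ) + 1 + N))) ^ k‖ ^ 2 := by
  classical
  have hN : 0 < N := by omega
  set e : ℕ → ℤ := fun s => (s : ℤ) * ((s : ℤ) + 1 + N) with he
  have hw : ∀ s t : ℕ, rt N ^ e s * (starRingEnd ℂ) (rt N ^ e t) = rt N ^ (e s - e t) := by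
    intro s t
    rw [conj_rt_zpow, ← zpow_add₀ (rt_ne N), sub_eq_add_neg]
  have hw2 : ∀ s t : ℕ, (rt N ^ (e s - e t)) ^ (2 * N) = 1 := by
    intro s t
    rw [← zpow_natCast, ← zpow_mul, mul_comm, zpow_mul]
    have h3 : rt N ^ ((2 * N : ℕ) : ℤ) = 1 := by
      rw [zpow_natCast, mul_comm, pow_mul, rt_pow_N hN]; norm_num
    rw [h3, one_zpow]
  have hfe : ∀ s < N, ∀ t < N, rt N ^ (e s - e t) = 1 → f t = f s := by
    intro s hs t ht h
    have h3 := jp_dvd N hN _ h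
    have h4 : e s - e t = ((s : ℤ) - t) * ((s : ℤ) + t + 1 + N) := by
      simp only [he]; ring
    rw [h4] at h3
    have hpi : Prime (N : ℤ) := Nat.prime_iff_prime_int.mp hp
    rcases hpi.dvd_or_dvd h3 with h5 | h5
    · have h6 : (s : ℤ) - t = 0 := by
        apply Int.eq_zero_of_abs_lt_dvd h5
        rw [abs_lt]
        constructor <;> omega
      have h7 : t = s := by omega
      rw [h7]
    · obtain ⟨c, hc⟩ := h5
      have h6 : (s : ℤ) + t + 1 = N * (c - 1) := by rw [mul_sub, mul_one, ← hc]; ring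
      have hNz : (0 : ℤ) < N := by exact_mod_cast hN
      have h7 : c - 1 = 1 := by
        have h8 : 0 < c - 1 := by
          by_contra h9
          have h10 : (N : ℤ) * (c - 1) ≤ 0 := mul_nonpos_of_nonneg_of_nonpos hNz.le (by omega)
          omega
        have h9 : c - 1 < 2 := by
          by_contra h11
          have h12 : (N : ℤ) * 2 ≤ N * (c - 1) := mul_le_mul_of_nonneg_left (by omega) hNz.le
          omega
        omega
      rw [h7, mul_one] at h6
      have h8 : t = N - 1 - s := by omega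
      rw [h8]
      exact hf s hs
  have hsum : ∀ k : ℕ, ((‖∑ s ∈ range N, f s * (rt N ^ e s) ^ k‖ ^ 2 : ℝ) : ℂ) =
      ∑ s ∈ range N, ∑ t ∈ range N, f s * (starRingEnd ℂ) (f t) * (rt N ^ (e s - e t)) ^ k := by
    intro k
    rw [Complex.ofReal_pow, ← Complex.mul_conj', map_sum, sum_mul_sum]
    refine sum_congr rfl fun s _ => sum_congr rfl fun t _ => ?_
    rw [map_mul, map_pow, ← hw s t, mul_pow]
    ring
  set C : ℕ → Finset ℕ := fun s => (range N).filter (fun t => rt N ^ (e s - e t) = 1) with hC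
  have hmain : ((∑ k ∈ range (2 * N), ‖∑ s ∈ range N, f s * (rt N ^ e s) ^ k‖ ^ 2 : ℝ) : ℂ) =
      ((∑ s ∈ range N, 2 * (N : ℝ) * (((C s).card : ℝ) * ‖f s‖ ^ 2) : ℝ) : ℂ) := by
    rw [Complex.ofReal_sum, sum_congr rfl fun k _ => hsum k, sum_comm, Complex.ofReal_sum]
    refine sum_congr rfl fun s hs => ?_
    rw [sum_comm]
    have h3 : ∀ t ∈ range N, ∑ k ∈ range (2 * N), f s * (starRingEnd ℂ) (f t) * (rt N ^ (e s - e t)) ^ k =
        if rt N ^ (e s - e t) = 1 then 2 * (N : ℂ) * (f s * (starRingEnd ℂ) (f s)) else 0 := by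
      intro t ht
      rw [← mul_sum]
      split_ifs with h4
      · rw [h4, hfe s (mem_range.mp hs) t (mem_range.mp ht) h4]
        simp
        ring
      · rw [jp_geom N _ h4 (hw2 s t), mul_zero]
    rw [sum_congr rfl h3, ← sum_filter, sum_const, nsmul_eq_mul]
    push_cast
    rw [Complex.mul_conj']
    ring
  have hmain2 := Complex.ofReal_injective hmain
  have hgoal : ∑ k ∈ range (2 * N), ‖∑ s ∈ range N, f s * (rt N ^ ((s : ℤ) * ((s : ℤ) + 1 + N))) ^ k‖ ^ 2 =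
      ∑ s ∈ range N, 2 * (N : ℝ) * (((C s).card : ℝ) * ‖f s‖ ^ 2) := hmain2
  rw [hgoal, mul_sum]
  refine sum_le_sum fun s hs => ?_
  have h5 : (1 : ℝ) ≤ ((C s).card : ℝ) := by
    have h6 : 0 < (C s).card := card_pos.mpr ⟨s, by
      rw [hC]; simp only [mem_filter]; exact ⟨hs, by rw [sub_self, zpow_zero]⟩⟩
    exact_mod_cast h6
  have h7 : ‖f s‖ ^ 2 ≤ ((C s).card : ℝ) * ‖f s‖ ^ 2 := le_mul_of_one_le_left (by positivity) h5
  exact mul_le_mul_of_nonneg_left h7 (by positivity)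

end Pool.Agent.H50B.JP
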