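import Pool.Agent.H489K.Extra

/-!
The eigenvalues of the crossing on the weight spaces.
-/

set_option autoImplicit false

namespace Pool.Agent.H50B.JT

open Matrix Finset Pool.Agent.R807 Pool.Agent.H550R3.Jones Pool.Agent.W709.QAT Pool.Agent.H489K
open Pool.Agent.W715.VC (rt EE Eo Ko sh M1 M2 rt_ne br_ne)

/-- the difference of the traces is the eigenvalue on the kernel -/
lemma chi_key {m n : Type} [Fintype m] [Fintype n] [DecidableEq m] [DecidableEq n]
    {E : Matrix m n ℂ} {R : Matrix n m ℂ} (hR : E * R = 1) {w : n → ℂ} {i0 : n} (hw0 : w i0 = 1)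
    (hw : E *ᵥ w = 0)
    (hker : ∀ x : n → ℂ, E *ᵥ x = 0 → x = x i0 • w) {A : Matrix n n ℂ} {A' : Matrix m m ℂ}
    (h : E * A = A' * E) :
    A *ᵥ w = (A.trace - A'.trace) • w := by
  obtain ⟨φ, hφ⟩ : ∃ φ : n → ℂ, (1 : Matrix n n ℂ) - R * E = vecMulVec w φ := by
    set Q : Matrix n n ℂ := (1 : Matrix n n ℂ) - R * E with hQ
    refine ⟨fun j => Q i0 j, ?_⟩
    ext i j
    have h1 : E *ᵥ (fun i => Q i j) = 0 := by
      have h2 : E * Q = 0 := by
        rw [hQ, Matrix.mul_sub, Matrix.mul_one, ← Matrix.mul_assoc, hR, Matrix.one_mul, sub_self]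
      funext k
      have := congrFun (congrFun h2 k) j
      exact this
    have h3 := congrFun (hker _ h1) i
    rw [vecMulVec_apply]
    simp only [Pi.smul_apply, smul_eq_mul] at h3
    rw [h3, mul_comm]
  have h1 : E *ᵥ (A *ᵥ w) = 0 := by
    rw [mulVec_mulVec, h, ← mulVec_mulVec, hw, mulVec_zero]
  have h2 := hker _ h1
  have h3 : A.trace - A'.trace = (A *ᵥ w) i0 := by
    have e1 : A = A * (vecMulVec w φ) + A * (R * E) := by
      rw [← hφ, ← mul_add]
      simp
    have e2 : (A * (R * E)).trace = A'.trace := by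
      rw [← Matrix.mul_assoc, Matrix.trace_mul_comm, ← Matrix.mul_assoc, h, Matrix.mul_assoc,
        hR, Matrix.mul_one]
    have e3 : (A * vecMulVec w φ).trace = (A *ᵥ w) i0 * (φ ⬝ᵥ w) := by
      rw [Matrix.mul_vecMulVec, Matrix.trace_vecMulVec, h2, smul_dotProduct, smul_eq_mul]
      simp only [Pi.smul_apply, smul_eq_mul, hw0, mul_one]
      rw [dotProduct_comm]
    have e4 : φ ⬝ᵥ w = 1 := by
      have h5 : (1 - R * E) *ᵥ w = w := by
        rw [sub_mulVec, one_mulVec, ← mulVec_mulVec, hw, mulVec_zero, sub_zero]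
      rw [hφ] at h5
      have h6 := congrFun h5 i0
      rw [vecMulVec_mulVec] at h6
      simp only [Pi.smul_apply, hw0] at h6
      simpa [hw0] using h6
    rw [e4, mul_one] at e3
    rw [← e3, ← e2]
    nth_rewrite 1 [e1]
    rw [Matrix.trace_add]
    ring
  rw [h3]
  exact h2

lemma brf_zero' (v : ℂ) : brf v 0 = 1 := by simp [brf]

lemma brf_succ' (v : ℂ) (n : ℕ) : brf v (n + 1) = brf v n * br v ((n : ℤ) + 1) := by
  unfold brf
  rw [Finset.prod_range_succ]

lemma brf_ne0 {N n : ℕ} (h : n < N) : brf (rt N) n ≠ 0 := by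
  unfold brf
  rw [Finset.prod_ne_zero_iff]
  intro j hj
  have := Finset.mem_range.1 hj
  exact br_ne (by omega) (by omega)

/-- the entries of `E` -/
lemma EE_up {N : ℕ} (p q : Fin N × Fin N) (h1 : (q.1 : ℕ) = p.1 + 1) (h2 : q.2 = p.2) :
    EE N p q = br (rt N) (((p.1 : ℕ) : ℤ) + 1) * rt N ^ ((N : ℤ) - 1 - 2 * ((p.2 : ℕ) : ℤ)) := by
  have hN : 0 < N := lt_of_le_of_lt (Nat.zero_le _) p.1.2
  rw [EE_apply, Matrix.one_apply_ne (by
    intro h
    rw [h] at h1
    omega), zero_mul, add_zero, h2]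
  congr 1
  · unfold Eo irr
    dsimp only
    rw [if_pos h1, Pool.Agent.W715.VC.br_refl hN, h1]
    push_cast
    rfl
  · unfold Ko WM.K
    rw [Matrix.diagonal_apply_eq]
    unfold irr
    dsimp only
    rw [one_mul]

lemma EE_dn {N : ℕ} (p q : Fin N × Fin N) (h1 : q.1 = p.1) (h2 : (q.2 : ℕ) = p.2 + 1) :
    EE N p q = br (rt N) (((p.2 : ℕ) : ℤ) + 1) := by
  have hN : 0 < N := lt_of_le_of_lt (Nat.zero_le _) p.1.2
  have e1 : Eo N p.1 q.1 = 0 := by
    by_contra h
    have := Pool.Agent.W715.VC.Eo_ne h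
    rw [h1] at this
    omega
  rw [EE_apply, e1, zero_mul, zero_add, h1, Matrix.one_apply_eq, one_mul]
  unfold Eo irr
  dsimp only
  rw [if_pos h2, Pool.Agent.W715.VC.br_refl hN, h2]
  push_cast
  rfl

/-- the extreme entry of the crossing -/
lemma cP_ext (N s : ℕ) (a b : Fin N) (ha : (a : ℕ) = 0) (hb : (b : ℕ) = s) :
    crossP N (rt N) (a, b) (b, a) = rt N ^ (-((N : ℤ) - 1) * (1 + (s : ℤ))) := by
  unfold crossP
  rw [if_pos ⟨by simp only; omega, le_rfl⟩]
  simp only [ha, hb, Nat.sub_self, brf_zero']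
  simp

lemma cP_ze (N : ℕ) {p q : Fin N × Fin N} (h : ¬ ((q.2 : ℕ) ≤ p.1)) :
    crossP N (rt N) p q = 0 := by
  unfold crossP
  exact if_neg fun h' => h h'.2

theorem taskT (N s : ℕ) (hs : s + 1 ≤ N) : T1 (cr N true) (s + 1) - T1 (cr N true) s =
    (-1) ^ s * rt N ^ (-((N : ℤ) - 1) * (1 + 2 * (s : ℤ)) + (s : ℤ) * ((s : ℤ) - 1)) := by
  have h := hs
  have h' : s ≤ N := by omega
  obtain ⟨⟨R, hR⟩, w, hw0, hw, hker⟩ := bidiag' ((EE N).submatrix (ix h') (ix h)) (by
    intro i j hij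
    rcases EE_sup hij with ⟨h1, -⟩ | ⟨h1, -⟩
    · left
      exact Fin.ext h1
    · right
      have h2 : (j : ℕ) = (i : ℕ) := congrArg (fun x : Fin N => (x : ℕ)) h1
      exact Fin.ext h2) (by
    intro i
    apply EE_nz
    · rfl
    · apply Fin.ext
      show s + 1 - 1 - ((i : ℕ) + 1) = s - 1 - i
      omega)
  have hA : Good (cr N true) := ⟨cr_EE true, Wp_cr true⟩
  have comm : (EE N).submatrix (ix h') (ix h) * (cr N true).submatrix (ix h) (ix h) =
      (cr N true).submatrix (ix h') (ix h') * (EE N).submatrix (ix h') (ix h) := by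
    rw [← sub_ix' (EE N) hA.2 h, ← hA.1, sub_ix hA.2]
  have key := chi_key hR hw0 hw hker comm
  rw [T1_eq, T1_eq] at key
  -- the recursion
  have hrec : ∀ i : Fin s, br (rt N) (((i : ℕ) : ℤ) + 1) *
      rt N ^ ((N : ℤ) - 1 - 2 * ((s - 1 - (i : ℕ) : ℕ) : ℤ)) * w i.succ +
      br (rt N) (((s - 1 - (i : ℕ) : ℕ) : ℤ) + 1) * w i.castSucc = 0 := by
    intro i
    have e := congrFun hw i
    have hne : i.succ ≠ i.castSucc := by
      intro h
      have := congrArg Fin.val h
      simp at this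
    have e1 : ∑ j, (EE N).submatrix (ix h') (ix h) i j * w j =
        (EE N).submatrix (ix h') (ix h) i i.succ * w i.succ +
          (EE N).submatrix (ix h') (ix h) i i.castSucc * w i.castSucc := by
      rw [← Finset.sum_subset (subset_univ ({i.succ, i.castSucc} : Finset (Fin (s + 1))))]
      · rw [Finset.sum_pair hne]
      · intro j _ hj
        simp only [mem_insert, mem_singleton, not_or] at hj
        by_contra h9
        rcases EE_sup (left_ne_zero_of_mul h9) with ⟨h1, -⟩ | ⟨h1, -⟩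
        · exact hj.1 (Fin.ext h1)
        · exact hj.2 (Fin.ext (congrArg (fun x : Fin N => (x : ℕ)) h1))
    have hi := i.2
    have e2 : (EE N).submatrix (ix h') (ix h) i i.succ = br (rt N) (((i : ℕ) : ℤ) + 1) *
        rt N ^ ((N : ℤ) - 1 - 2 * ((s - 1 - (i : ℕ) : ℕ) : ℤ)) := by
      rw [Matrix.submatrix_apply]
      exact EE_up _ _ rfl (Fin.ext (by
        show s + 1 - 1 - ((i : ℕ) + 1) = s - 1 - i
        omega))
    have e3 : (EE N).submatrix (ix h') (ix h) i i.castSucc =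
        br (rt N) (((s - 1 - (i : ℕ) : ℕ) : ℤ) + 1) := by
      rw [Matrix.submatrix_apply]
      exact EE_dn _ _ rfl (by
        show s + 1 - 1 - (i : ℕ) = s - 1 - i + 1
        omega)
    rw [e2, e3] at e1
    rw [← e1]
    exact e
  have hv := rt_ne N
  have hcl : ∀ a : ℕ, ∀ ha : a < s + 1, w ⟨a, ha⟩ * (brf (rt N) a * brf (rt N) (s - a)) =
      (-1) ^ a * rt N ^ (-(a : ℤ) * ((N : ℤ) - 1) + (a : ℤ) * (2 * (s : ℤ) - 1 - a)) *
        brf (rt N) s := by
    intro a
    induction a with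
    | zero =>
      intro ha
      have : w ⟨0, ha⟩ = 1 := hw0
      rw [this, brf_zero']
      simp
    | succ a ih =>
      intro ha
      have ih' := ih (by omega)
      have r := hrec ⟨a, by omega⟩
      simp only [Fin.succ_mk, Fin.castSucc_mk] at r
      obtain ⟨b, hb⟩ : ∃ b, s = a + 1 + b := ⟨s - (a + 1), by omega⟩
      have e1 : s - 1 - a = b := by omega
      have e2 : s - (a + 1) = b := by omega
      have e3 : s - a = b + 1 := by omega
      rw [e1] at r
      rw [e3, brf_succ'] at ih'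
      rw [e2, brf_succ']
      have hz : rt N ^ ((N : ℤ) - 1 - 2 * (b : ℤ)) ≠ 0 := zpow_ne_zero _ hv
      apply mul_left_cancel₀ hz
      have hx : rt N ^ ((N : ℤ) - 1 - 2 * (b : ℤ)) *
          rt N ^ (-((a + 1 : ℕ) : ℤ) * ((N : ℤ) - 1) +
            ((a + 1 : ℕ) : ℤ) * (2 * (s : ℤ) - 1 - ((a + 1 : ℕ) : ℤ))) =
          rt N ^ (-(a : ℤ) * ((N : ℤ) - 1) + (a : ℤ) * (2 * (s : ℤ) - 1 - a)) := by
        rw [← zpow_add₀ hv]
        congr 1
        rw [hb]
        push_cast
        ring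
      calc rt N ^ ((N : ℤ) - 1 - 2 * (b : ℤ)) * (w ⟨a + 1, ha⟩ *
            (brf (rt N) a * br (rt N) ((a : ℤ) + 1) * brf (rt N) b))
          = (br (rt N) ((a : ℤ) + 1) * rt N ^ ((N : ℤ) - 1 - 2 * (b : ℤ)) * w ⟨a + 1, ha⟩) *
            (brf (rt N) a * brf (rt N) b) := by ring
        _ = - (br (rt N) ((b : ℤ) + 1) * w ⟨a, by omega⟩) * (brf (rt N) a * brf (rt N) b) := by
            rw [eq_neg_of_add_eq_zero_left r]
        _ = - (w ⟨a, by omega⟩ * (brf (rt N) a * (brf (rt N) b * br (rt N) ((b : ℤ) + 1)))) := by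
            ring
        _ = - ((-1) ^ a * rt N ^ (-(a : ℤ) * ((N : ℤ) - 1) + (a : ℤ) * (2 * (s : ℤ) - 1 - a)) *
            brf (rt N) s) := by rw [ih']
        _ = _ := by
            rw [← hx, pow_succ]
            ring
  have hlast : w (Fin.last s) = (-1) ^ s * rt N ^ (-(s : ℤ) * ((N : ℤ) - 1) +
      (s : ℤ) * (2 * (s : ℤ) - 1 - s)) := by
    have e := hcl s (by omega)
    rw [Nat.sub_self, brf_zero', mul_one] at e
    exact mul_right_cancel₀ (brf_ne0 (by omega)) e
  have k0 := congrFun key 0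
  rw [Pi.smul_apply, smul_eq_mul, hw0, mul_one] at k0
  rw [← k0]
  have e4 : ((cr N true).submatrix (ix h) (ix h) *ᵥ w) 0 =
      (cr N true).submatrix (ix h) (ix h) 0 (Fin.last s) * w (Fin.last s) := by
    rw [Matrix.mulVec, dotProduct]
    apply Finset.sum_eq_single (Fin.last s)
    · intro j _ hj
      have hj' : (j : ℕ) < s := by
        have h1 := j.2
        have h2 : (j : ℕ) ≠ s := fun h3 => hj (Fin.ext h3)
        omega
      rw [Matrix.submatrix_apply]
      have : cr N true (ix h 0) (ix h j) = 0 := by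
        unfold cr
        rw [if_pos rfl]
        apply cP_ze
        show ¬ (s + 1 - 1 - (j : ℕ) ≤ 0)
        omega
      rw [this, zero_mul]
    · intro h9
      exact absurd (Finset.mem_univ _) h9
  have e5 : (cr N true).submatrix (ix h) (ix h) 0 (Fin.last s) =
      rt N ^ (-((N : ℤ) - 1) * (1 + (s : ℤ))) := by
    rw [Matrix.submatrix_apply]
    unfold cr
    rw [if_pos rfl]
    have e6 : ix h (Fin.last s) = ((ix h 0).2, (ix h 0).1) := by
      apply Prod.ext
      · apply Fin.ext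
        show s = s + 1 - 1 - 0
        omega
      · apply Fin.ext
        show s + 1 - 1 - s = 0
        omega
    rw [e6]
    exact cP_ext N s (ix h 0).1 (ix h 0).2 rfl rfl
  rw [e4, e5, hlast]
  rw [show rt N ^ (-((N : ℤ) - 1) * (1 + (s : ℤ))) * ((-1) ^ s * rt N ^ (-(s : ℤ) * ((N : ℤ) - 1) +
      (s : ℤ) * (2 * (s : ℤ) - 1 - s))) = (-1) ^ s * (rt N ^ (-((N : ℤ) - 1) * (1 + (s : ℤ))) *
      rt N ^ (-(s : ℤ) * ((N : ℤ) - 1) + (s : ℤ) * (2 * (s : ℤ) - 1 - s))) from by ring]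
  rw [← zpow_add₀ hv]
  congr 2
  ring

end Pool.Agent.H50B.JT
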