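import Pool.Agent.H50B.Defs

/-!
Symmetry under the rotation by a half turn about the vertical axis.
-/

set_option autoImplicit false

namespace Pool.Agent.H50B

open Matrix Finset Pool.Agent.R807 Pool.Agent.H550R3.Jones Pool.Agent.W709.QAT Pool.Agent.H489K
open Pool.Agent.W715.VC (rt EE Eo Ko sh M1 M2 adm rt_ne)
open Pool.Agent.W683.QAT (cP_diag cP_zero brf_ne')

variable {N : ℕ}

/-- the rotation on pairs -/
def ro (p : Fin N × Fin N) : Fin N × Fin N := (Fin.rev p.2, Fin.rev p.1)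

lemma ro_ro (p : Fin N × Fin N) : ro (ro p) = p := by
  unfold ro
  simp only [Fin.rev_rev]

/-- the rotation as a bijection -/
def roE : Fin N × Fin N ≃ Fin N × Fin N := ⟨ro, ro, ro_ro, ro_ro⟩

lemma prod_br (v : ℂ) (hv : Adm N v) (a n : ℕ) (h : a + n < N) :
    ∏ t ∈ range n, br v (((a + 1 : ℕ) : ℤ) + t) = brf v (a + n) / brf v a := by
  induction n with
  | zero => rw [Finset.prod_range_zero, Nat.add_zero, div_self (brf_ne' hv (by omega))]
  | succ n ih =>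
    rw [Finset.prod_range_succ, ih (by omega)]
    have e : brf v (a + (n + 1)) = brf v (a + n) * br v (((a + n : ℕ) : ℤ) + 1) := by
      unfold brf
      rw [← Nat.add_assoc, Finset.prod_range_succ]
    rw [e]
    have e2 : ((a + 1 : ℕ) : ℤ) + (n : ℤ) = ((a + n : ℕ) : ℤ) + 1 := by push_cast; ring
    rw [e2]
    ring

/-- the entries of the crossing in terms of factorials -/
lemma cP_fac {v : ℂ} (hv : Adm N v) {p q : Fin N × Fin N} {n : ℕ}
    (h1 : (p.1 : ℕ) = q.2 + n) (h2 : (q.1 : ℕ) = p.2 + n) :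
    crossP N v p q =
      v ^ (-((N : ℤ) - 1) * (1 + (q.1 : ℕ) + (q.2 : ℕ)) + 2 * (p.1 : ℕ) * (p.2 : ℕ)) *
      v ^ (n * (n - 1) / 2) * (brf v p.1 / (brf v q.2 * brf v n)) *
      (brf v (N - 1 - p.2) / brf v (N - 1 - q.1)) := by
  unfold crossP
  rw [if_pos ⟨by omega, by omega⟩]
  have e : (p.1 : ℕ) - q.2 = n := by omega
  rw [e]
  congr 1
  have hq := q.1.2
  have h3 := prod_br v hv (N - 1 - q.1) n (by omega)
  have e2 : N - 1 - (q.1 : ℕ) + n = N - 1 - p.2 := by omega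
  rw [e2] at h3
  rw [← h3]
  refine Finset.prod_congr rfl fun t _ => ?_
  congr 2
  omega

lemma cP_ro {v : ℂ} (hv : Adm N v) (p q : Fin N × Fin N) :
    crossP N v (ro p) (ro q) = crossP N v p q := by
  have hp1 := p.1.2
  have hp2 := p.2.2
  have hq1 := q.1.2
  have hq2 := q.2.2
  by_cases h : (p.1 : ℕ) + p.2 = q.1 + q.2 ∧ (q.2 : ℕ) ≤ p.1
  · obtain ⟨n, hn⟩ : ∃ n, (p.1 : ℕ) = q.2 + n := ⟨p.1 - q.2, by omega⟩
    rw [cP_fac hv (n := n) hn (by omega), cP_fac hv (n := n)]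
    · have g1 : ((ro p).1 : ℕ) = N - 1 - p.2 := by show ((Fin.rev p.2 : Fin N) : ℕ) = _; rw [Fin.val_rev]; omega
      have g2 : ((ro p).2 : ℕ) = N - 1 - p.1 := by show ((Fin.rev p.1 : Fin N) : ℕ) = _; rw [Fin.val_rev]; omega
      have g3 : ((ro q).1 : ℕ) = N - 1 - q.2 := by show ((Fin.rev q.2 : Fin N) : ℕ) = _; rw [Fin.val_rev]; omega
      have g4 : ((ro q).2 : ℕ) = N - 1 - q.1 := by show ((Fin.rev q.1 : Fin N) : ℕ) = _; rw [Fin.val_rev]; omega
      rw [g1, g2, g3, g4]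
      have e1 : N - 1 - (N - 1 - (p.1 : ℕ)) = p.1 := by omega
      have e2 : N - 1 - (N - 1 - (q.2 : ℕ)) = q.2 := by omega
      rw [e1, e2]
      have c1 : ((N - 1 - (p.1 : ℕ) : ℕ) : ℤ) = (N : ℤ) - 1 - (p.1 : ℕ) := by omega
      have c2 : ((N - 1 - (p.2 : ℕ) : ℕ) : ℤ) = (N : ℤ) - 1 - (p.2 : ℕ) := by omega
      have c3 : ((N - 1 - (q.1 : ℕ) : ℕ) : ℤ) = (N : ℤ) - 1 - (q.1 : ℕ) := by omega
      have c4 : ((N - 1 - (q.2 : ℕ) : ℕ) : ℤ) = (N : ℤ) - 1 - (q.2 : ℕ) := by omega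
      rw [c1, c2, c3, c4]
      have e3 : -((N : ℤ) - 1) * (1 + ((N : ℤ) - 1 - (q.2 : ℕ)) + ((N : ℤ) - 1 - (q.1 : ℕ))) +
          2 * ((N : ℤ) - 1 - (p.2 : ℕ)) * ((N : ℤ) - 1 - (p.1 : ℕ)) =
          -((N : ℤ) - 1) * (1 + (q.1 : ℕ) + (q.2 : ℕ)) + 2 * (p.1 : ℕ) * (p.2 : ℕ) := by
        have : (p.1 : ℤ) + p.2 = q.1 + q.2 := by exact_mod_cast h.1
        linear_combination (-2 * ((N : ℤ) - 1)) * this
      rw [e3]
      ring
    · show ((Fin.rev p.2 : Fin N) : ℕ) = ((Fin.rev q.1 : Fin N) : ℕ) + n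
      rw [Fin.val_rev, Fin.val_rev]
      omega
    · show ((Fin.rev q.2 : Fin N) : ℕ) = ((Fin.rev p.1 : Fin N) : ℕ) + n
      rw [Fin.val_rev, Fin.val_rev]
      omega
  · rw [cP_zero h, cP_zero]
    intro h1
    apply h
    have h2 : ((Fin.rev p.2 : Fin N) : ℕ) + ((Fin.rev p.1 : Fin N) : ℕ) =
      ((Fin.rev q.2 : Fin N) : ℕ) + ((Fin.rev q.1 : Fin N) : ℕ) := h1.1
    have h3 : ((Fin.rev q.1 : Fin N) : ℕ) ≤ ((Fin.rev p.2 : Fin N) : ℕ) := h1.2
    rw [Fin.val_rev, Fin.val_rev] at h3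
    rw [Fin.val_rev, Fin.val_rev, Fin.val_rev, Fin.val_rev] at h2
    omega

lemma cup_ro (v : ℂ) (p : Fin N × Fin N) : cup N v (ro p) = cup N v p := by
  have hp1 := p.1.2
  have hp2 := p.2.2
  unfold cup
  have e1 : ((ro p).1 : ℕ) + (ro p).2 = N - 1 ↔ (p.1 : ℕ) + p.2 = N - 1 := by
    show ((Fin.rev p.2 : Fin N) : ℕ) + ((Fin.rev p.1 : Fin N) : ℕ) = N - 1 ↔ _
    rw [Fin.val_rev, Fin.val_rev]
    omega
  by_cases h : (p.1 : ℕ) + p.2 = N - 1
  · rw [if_pos h, if_pos (e1.2 h)]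
    congr 1
    show ((Fin.rev p.2 : Fin N) : ℕ) = _
    rw [Fin.val_rev]
    omega
  · rw [if_neg h, if_neg (fun h1 => h (e1.1 h1))]

lemma cap_ro (v : ℂ) (p : Fin N × Fin N) : cap N v (ro p) = cap N v p := by
  have hp1 := p.1.2
  have hp2 := p.2.2
  unfold cap
  have e1 : ((ro p).1 : ℕ) + (ro p).2 = N - 1 ↔ (p.1 : ℕ) + p.2 = N - 1 := by
    show ((Fin.rev p.2 : Fin N) : ℕ) + ((Fin.rev p.1 : Fin N) : ℕ) = N - 1 ↔ _
    rw [Fin.val_rev, Fin.val_rev]
    omega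
  by_cases h : (p.1 : ℕ) + p.2 = N - 1
  · rw [if_pos h, if_pos (e1.2 h)]
    congr 2
    show ((Fin.rev p.1 : Fin N) : ℕ) = _
    rw [Fin.val_rev]
    omega
  · rw [if_neg h, if_neg (fun h1 => h (e1.1 h1))]

/-- the rotation on lists -/
def rl (s : List (Fin N)) : List (Fin N) := (s.map Fin.rev).reverse

lemma rl_mid (l r : List (Fin N)) (p : Fin N × Fin N) :
    rl (l ++ p.1 :: p.2 :: r) = rl r ++ (ro p).1 :: (ro p).2 :: rl l := by
  unfold rl ro
  simp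

lemma rl_app (l r : List (Fin N)) : rl (l ++ r) = rl r ++ rl l := by
  unfold rl
  simp

lemma rl_len (l : List (Fin N)) : (rl l).length = l.length := by
  unfold rl
  simp

/-- the rotation of a piece with `n` strands below it -/
def prot : Piece → ℕ → Piece
  | .cup i, n => .cup (n - i)
  | .cap i, n => .cap (n - 2 - i)
  | .twist i σ m, n => .twist (n - 2 - i) σ m

lemma act_ro_cup {n : ℕ} (i : ℕ) (hi : i ≤ n) (f : List (Fin N) → ℂ) (s : List (Fin N))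
    (hs : s.length = n + 2) :
    (Piece.cup (n - i)).act N (rt N) f (rl s) = (Piece.cup i).act N (rt N) (fun t => f (rl t)) s := by
  obtain ⟨l, a, b, r, rfl, hl⟩ := exists_mid hs (i := i) (by omega)
  simp only [List.length_append, List.length_cons] at hs
  have h1 := rl_mid l r (a, b)
  simp only at h1
  rw [h1, act_cup _ _ _ _ _ _ _ hl, act_cup _ _ _ _ _ _ _ (by rw [rl_len]; omega), rl_app]
  congr 1
  exact cup_ro _ _

lemma act_ro_cap {n : ℕ} (i : ℕ) (hi : i + 2 ≤ n) (f : List (Fin N) → ℂ) (s : List (Fin N))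
    (hs : s.length = n - 2) :
    (Piece.cap (n - 2 - i)).act N (rt N) f (rl s) =
      (Piece.cap i).act N (rt N) (fun t => f (rl t)) s := by
  have e : s = s.take i ++ s.drop i := (List.take_append_drop i s).symm
  have hl : (s.take i).length = i := by rw [List.length_take]; omega
  have hr : (rl (s.drop i)).length = n - 2 - i := by rw [rl_len, List.length_drop]; omega
  rw [e, rl_app, act_cap _ _ _ _ _ hl, act_cap _ _ _ _ _ hr, ← Equiv.sum_comp roE]
  refine sum_congr rfl fun p _ => ?_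
  show cap N (rt N) (ro p) * f (rl (s.drop i) ++ (ro p).1 :: (ro p).2 :: rl (s.take i)) = _
  rw [cap_ro, rl_mid]

lemma act_ro_twist {n : ℕ} (i : ℕ) (hi : i + 2 ≤ n) (f : List (Fin N) → ℂ) (s : List (Fin N))
    (hs : s.length = n) :
    (Piece.twist (n - 2 - i) true 1).act N (rt N) f (rl s) =
      (Piece.twist i true 1).act N (rt N) (fun t => f (rl t)) s := by
  obtain ⟨l, a, b, r, rfl, hl⟩ := exists_mid hs (i := i) (by omega)
  simp only [List.length_append, List.length_cons] at hs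
  have h1 := rl_mid l r (a, b)
  simp only at h1
  rw [h1, act_twist _ _ _ _ _ _ _ _ hl, act_twist _ _ _ _ _ _ _ _ (by rw [rl_len]; omega),
    ← Equiv.sum_comp roE]
  refine sum_congr rfl fun p _ => ?_
  show (cr N true ^ 1) (ro (a, b)) (ro p) * f (rl r ++ (ro p).1 :: (ro p).2 :: rl l) = _
  rw [cr_one, cr_one, cP_ro (adm N), rl_mid]

end Pool.Agent.H50B
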