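import Pool.Agent.H50B.A3
import Pool.Agent.H50B.R1

/-!
Symmetries of the characters.
-/

set_option autoImplicit false

namespace Pool.Agent.H50B

open Matrix Finset Pool.Agent.R807 Pool.Agent.W709.QAT Pool.Agent.H489K
open Pool.Agent.H550R3.Jones hiding W
open Pool.Agent.W715.VC (rt EE FF KK KKi Eo Ko Fo sh M1 M2 adm rt_ne rt_zpow_N EE_FF KK_eq KKi_eq
  br_ne br_N br_zero sh_mul sh_EE sh_FF Eo_sum Fo_sum_succ Fo_sum_zero)

variable {N : ℕ}

/-- supported on one weight space -/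
def Sw (s : ℕ) (w : Fin N × Fin N → ℂ) : Prop := ∀ p, w p ≠ 0 → (p.1 : ℕ) + p.2 = s

/-- the highest weight vectors -/
theorem hwv {s : ℕ} (h : s + 1 ≤ N) : ∃ w : Fin N × Fin N → ℂ, Sw s w ∧ w (ix h 0) = 1 ∧
    EE N *ᵥ w = 0 ∧ (∀ x, Sw s x → EE N *ᵥ x = 0 → x = x (ix h 0) • w) ∧
    ∀ A : M2 N, Good A → A *ᵥ w = (T1 A (s + 1) - T1 A s) • w := by
  have h' : s ≤ N := by omega
  obtain ⟨⟨R, hR⟩, w, hw0, hw, hker⟩ := bidiag' ((EE N).submatrix (ix h') (ix h)) (by
    intro i j hij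
    rcases EE_sup hij with ⟨h1, -⟩ | ⟨h1, -⟩
    · left
      exact Fin.ext h1
    · right
      have h2 : (j : ℕ) = (i : ℕ) := congrArg (fun x : Fin N => (x : ℕ)) h1
      exact Fin.ext h2) (by
    intro i
    apply EE_nz
    · rfl
    · apply Fin.ext
      show s + 1 - 1 - ((i : ℕ) + 1) = s - 1 - i
      omega)
  set v : Fin N × Fin N → ℂ := fun p =>
    if hp : (p.1 : ℕ) + p.2 = s then w ⟨p.1, by omega⟩ else 0 with hv
  have hvw : ∀ a : Fin (s + 1), v (ix h a) = w a := by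
    intro a
    have h1 : ((ix h a).1 : ℕ) + (ix h a).2 = s := ix_wt h a
    rw [hv]
    simp only
    rw [dif_pos h1]
    rfl
  have hvs : Sw s v := by
    intro p hp
    by_contra h1
    apply hp
    rw [hv]
    simp only
    rw [dif_neg h1]
  have hsum : ∀ x : Fin N × Fin N → ℂ, Sw s x → ∀ g : Fin N × Fin N → ℂ,
      ∑ q, g q * x q = ∑ a, g (ix h a) * x (ix h a) := by
    intro x hx g
    rw [fiber (ix_inj h) (ix_range h) (fun q => g q * x q)
      (fun q hq => hx q (right_ne_zero_of_mul hq))]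
  have hE : EE N *ᵥ v = 0 := by
    funext p
    rw [Matrix.mulVec, dotProduct, Pi.zero_apply]
    by_cases hab : (p.1 : ℕ) + p.2 + 1 = s
    · rw [hsum v hvs]
      have h1 := congrFun hw ⟨p.1, by omega⟩
      rw [Matrix.mulVec, dotProduct, Pi.zero_apply] at h1
      rw [← h1]
      refine sum_congr rfl fun x _ => ?_
      rw [Matrix.submatrix_apply, hvw]
      congr 2
      apply Prod.ext
      · rfl
      · apply Fin.ext
        show (p.2 : ℕ) = s - 1 - p.1
        omega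
    · refine sum_eq_zero fun q _ => ?_
      by_contra h1
      have h2 := hvs q (right_ne_zero_of_mul h1)
      rcases EE_sup (left_ne_zero_of_mul h1) with ⟨h3, h4⟩ | ⟨h3, h4⟩
      · rw [h4] at h2
        omega
      · rw [h3] at h2
        omega
  have huniq : ∀ x, Sw s x → EE N *ᵥ x = 0 → x = x (ix h 0) • v := by
    intro x hx hx0
    have h1 : (EE N).submatrix (ix h') (ix h) *ᵥ (fun a => x (ix h a)) = 0 := by
      funext i
      have h2 := congrFun hx0 (ix h' i)
      rw [Matrix.mulVec, dotProduct, Pi.zero_apply, hsum x hx] at h2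
      exact h2
    have h2 := hker _ h1
    funext p
    by_cases hp : (p.1 : ℕ) + p.2 = s
    · obtain ⟨a, rfl⟩ := ix_range h p hp
      have h3 := congrFun h2 a
      simp only [Pi.smul_apply, smul_eq_mul] at h3 ⊢
      rw [h3, hvw]
    · have h3 : x p = 0 := by
        by_contra h4
        exact hp (hx p h4)
      have h4 : v p = 0 := by
        by_contra h4
        exact hp (hvs p h4)
      simp only [Pi.smul_apply, smul_eq_mul]
      rw [h3, h4, mul_zero]
  refine ⟨v, hvs, ?_, hE, huniq, ?_⟩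
  · rw [hvw, hw0]
  · intro A hA
    have comm : (EE N).submatrix (ix h') (ix h) * A.submatrix (ix h) (ix h) =
        A.submatrix (ix h') (ix h') * (EE N).submatrix (ix h') (ix h) := by
      rw [← sub_ix' (EE N) hA.2 h, ← hA.1, sub_ix hA.2]
    have key := chi_key hR hw0 hw hker comm
    rw [T1_eq, T1_eq] at key
    have h1 : Sw s (A *ᵥ v) := by
      intro p hp
      rw [Matrix.mulVec, dotProduct] at hp
      obtain ⟨q, _, hq⟩ := exists_ne_zero_of_sum_ne_zero hp
      have h2 := hA.2 _ _ (left_ne_zero_of_mul hq)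
      have h3 := hvs _ (right_ne_zero_of_mul hq)
      omega
    have h2 : EE N *ᵥ (A *ᵥ v) = 0 := by
      rw [mulVec_mulVec, ← hA.1, ← mulVec_mulVec, hE, mulVec_zero]
    rw [huniq _ h1 h2]
    congr 1
    have h3 := congrFun key 0
    simp only [Matrix.mulVec, dotProduct, Matrix.submatrix_apply, Pi.smul_apply, smul_eq_mul, hw0,
      mul_one] at h3 ⊢
    rw [← h3, hsum v hvs]
    exact sum_congr rfl fun a _ => by rw [hvw]

/-- `E` lowers and `F` raises the index -/
lemma Sw_FF {s : ℕ} {w : Fin N × Fin N → ℂ} (hw : Sw s w) : Sw (s + 1) (FF N *ᵥ w) := by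
  intro p hp
  rw [Matrix.mulVec, dotProduct] at hp
  obtain ⟨q, _, hq⟩ := exists_ne_zero_of_sum_ne_zero hp
  have h1 := hw _ (right_ne_zero_of_mul hq)
  have h2 := left_ne_zero_of_mul hq
  unfold FF at h2
  rw [Matrix.add_apply, Matrix.kroneckerMap_apply, Matrix.kroneckerMap_apply] at h2
  by_cases h3 : Fo N p.1 q.1 * (1 : M1 N) p.2 q.2 = 0
  · rw [h3, zero_add] at h2
    have h4 := Pool.Agent.W715.VC.Fo_ne (right_ne_zero_of_mul h2)
    have h5 : p.1 = q.1 := by
      by_contra h6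
      have h7 := left_ne_zero_of_mul h2
      unfold Pool.Agent.W715.VC.Ki WM.K at h7
      exact h7 (Matrix.diagonal_apply_ne _ h6)
    rw [h5]
    omega
  · have h4 := Pool.Agent.W715.VC.Fo_ne (left_ne_zero_of_mul h3)
    have h5 : p.2 = q.2 := by
      by_contra h6
      exact (right_ne_zero_of_mul h3) (Matrix.one_apply_ne h6)
    rw [h5]
    omega

lemma KK_w {s : ℕ} {w : Fin N × Fin N → ℂ} (hw : Sw s w) :
    (rt N - (rt N)⁻¹) • ((KK N - KKi N) *ᵥ w) =
      (br (rt N) 1 * br (rt N) (2 * (N : ℤ) - 2 - 2 * s)) • w := by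
  rw [KK_eq, KKi_eq, sub_mulVec]
  funext p
  simp only [Pi.smul_apply, Pi.sub_apply, Matrix.mulVec_diagonal, smul_eq_mul]
  by_cases h : w p = 0
  · rw [h]; ring
  · have h1 := hw p h
    have e : 2 * ((N : ℤ) - 1) - 2 * (((p.1 : ℕ) + (p.2 : ℕ) : ℕ) : ℤ) = 2 * (N : ℤ) - 2 - 2 * s := by
      rw [h1]; ring
    unfold br
    simp only [e, zpow_one, _root_.zpow_neg_one]
    ring

/-- the powers of `F` on a highest weight vector -/
lemma EE_pow {s : ℕ} {w : Fin N × Fin N → ℂ} (hw : Sw s w) (hE : EE N *ᵥ w = 0) (m : ℕ) :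
    Sw (s + m) (FF N ^ m *ᵥ w) ∧ EE N *ᵥ (FF N ^ (m + 1) *ᵥ w) =
      (br (rt N) ((m : ℤ) + 1) * br (rt N) (2 * (N : ℤ) - 2 - 2 * s - m)) • (FF N ^ m *ᵥ w) := by
  have hS : ∀ m, Sw (s + m) (FF N ^ m *ᵥ w) := by
    intro m
    induction m with
    | zero => rw [pow_zero, one_mulVec]; exact hw
    | succ m ih =>
      rw [pow_succ', ← mulVec_mulVec]
      exact Sw_FF ih
  refine ⟨hS m, ?_⟩
  have step : ∀ m, EE N *ᵥ (FF N ^ (m + 1) *ᵥ w) = FF N *ᵥ (EE N *ᵥ (FF N ^ m *ᵥ w)) +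
      (br (rt N) 1 * br (rt N) (2 * (N : ℤ) - 2 - 2 * ((s + m : ℕ) : ℤ))) • (FF N ^ m *ᵥ w) := by
    intro m
    rw [← KK_w (hS m), ← smul_mulVec, ← EE_FF, sub_mulVec, pow_succ', ← mulVec_mulVec,
      ← mulVec_mulVec, ← mulVec_mulVec]
    abel
  have h0 := rt_ne N
  induction m with
  | zero =>
    rw [step, pow_zero, one_mulVec, hE, mulVec_zero, zero_add]
    congr 2
    · norm_num
  | succ m ih =>
    rw [step, ih, mulVec_smul, mulVec_mulVec, ← pow_succ', ← add_smul]
    congr 1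
    unfold br
    push_cast
    have e : ∀ a b : ℤ, (rt N ^ a - rt N ^ (-a)) * (rt N ^ b - rt N ^ (-b)) =
        rt N ^ (a + b) + rt N ^ (-(a + b)) - rt N ^ (a - b) - rt N ^ (b - a) := by
      intro a b
      rw [sub_mul, mul_sub, mul_sub, ← zpow_add₀ h0, ← zpow_add₀ h0, ← zpow_add₀ h0, ← zpow_add₀ h0]
      have e1 : -a + b = b - a := by ring
      have e2 : a + -b = a - b := by ring
      have e3 : -a + -b = -(a + b) := by ring
      rw [e1, e2, e3]
      ring
    rw [e, e, e]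
    ring_nf

end Pool.Agent.H50B
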