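import Pool.Agent.H50B.S1

/-!
Symmetries of the characters, second part.
-/

set_option autoImplicit false

namespace Pool.Agent.H50B

open Matrix Finset Pool.Agent.R807 Pool.Agent.W709.QAT Pool.Agent.H489K
open Pool.Agent.H550R3.Jones hiding W
open Pool.Agent.W715.VC (rt EE FF KK KKi Eo Ko Fo sh M1 M2 adm rt_ne rt_zpow_N EE_FF KK_eq KKi_eq
  br_ne br_N br_zero sh_mul sh_EE sh_FF Eo_sum Fo_sum_succ Fo_sum_zero)

variable {N : ℕ}

lemma FF_low (hN : 0 < N) {b : ℕ} (hb : b + 1 < N) (g : Fin N × Fin N → ℂ) :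
    (FF N *ᵥ g) (⟨0, hN⟩, ⟨b + 1, hb⟩) =
      rt N ^ (-((N : ℤ) - 1)) * (br (rt N) ((b : ℤ) + 1) * g (⟨0, hN⟩, ⟨b, by omega⟩)) := by
  rw [Matrix.mulVec, dotProduct, FF_sum, Fo_sum_zero hN, Fo_sum_succ]
  simp

lemma FF_low_pow (hN : 0 < N) {s : ℕ} {w : Fin N × Fin N → ℂ} (hs : s < N)
    (hw : w (⟨0, hN⟩, ⟨s, hs⟩) ≠ 0) (m : ℕ) (hm : s + m < N) :
    (FF N ^ m *ᵥ w) (⟨0, hN⟩, ⟨s + m, hm⟩) ≠ 0 := by
  induction m with
  | zero => rw [pow_zero, one_mulVec]; exact hw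
  | succ m ih =>
    rw [pow_succ', ← mulVec_mulVec]
    have h1 := FF_low hN (b := s + m) hm (FF N ^ m *ᵥ w)
    have h2 : ((⟨0, hN⟩, ⟨s + (m + 1), hm⟩) : Fin N × Fin N) = (⟨0, hN⟩, ⟨s + m + 1, hm⟩) := rfl
    rw [h2, h1]
    refine mul_ne_zero (zpow_ne_zero _ (rt_ne N)) (mul_ne_zero (br_ne (by omega) (by omega)) ?_)
    exact ih (by omega)

/-- commutes with `E` and `F` and preserves the weight -/
def Gd (A : M2 N) : Prop := Good A ∧ A * FF N = FF N * A

lemma Gd.pow {A : M2 N} (hA : Gd A) (m : ℕ) : A * FF N ^ m = FF N ^ m * A :=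
  (Commute.pow_right (hA.2 : Commute A (FF N)) m : Commute _ _)

/-- **the first symmetry** -/
theorem lam_symm {A : M2 N} (hA : Gd A) {s : ℕ} (hs : 2 * s + 1 < N) :
    T1 A (N - 1 - s + 1) - T1 A (N - 1 - s) = T1 A (s + 1) - T1 A s := by
  have hN : 0 < N := by omega
  have h : s + 1 ≤ N := by omega
  have h' : N - 1 - s + 1 ≤ N := by omega
  obtain ⟨w, hw1, hw2, hw3, -, hw5⟩ := hwv h
  obtain ⟨w', hw1', hw2', hw3', hw4', hw5'⟩ := hwv h'
  obtain ⟨d, hd⟩ : ∃ d, N - 1 - s = s + (d + 1) := ⟨N - 2 - 2 * s, by omega⟩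
  set z := FF N ^ (d + 1) *ᵥ w with hz
  have hz1 : Sw (N - 1 - s) z := by
    rw [hd]
    exact (EE_pow hw1 hw3 (d + 1)).1
  have hz2 : EE N *ᵥ z = 0 := by
    rw [hz, (EE_pow hw1 hw3 d).2]
    have e : 2 * (N : ℤ) - 2 - 2 * s - d = N := by omega
    rw [e, br_N hN, mul_zero, zero_smul]
  have hz3 := hw4' z hz1 hz2
  have hz4 : z (ix h' 0) ≠ 0 := by
    have h1 := FF_low_pow hN (s := s) (w := w) (by omega) (by
      have : ((⟨0, hN⟩, ⟨s, by omega⟩) : Fin N × Fin N) = ix h 0 := rfl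
      rw [this, hw2]
      exact one_ne_zero) (d + 1) (by omega)
    have h2 : ix h' 0 = ((⟨0, hN⟩, ⟨s + (d + 1), by omega⟩) : Fin N × Fin N) := by
      apply Prod.ext
      · rfl
      · apply Fin.ext
        show N - 1 - s + 1 - 1 - 0 = s + (d + 1)
        omega
    rw [h2]
    exact h1
  have hz5 : A *ᵥ z = (T1 A (s + 1) - T1 A s) • z := by
    rw [hz, mulVec_mulVec, hA.pow, ← mulVec_mulVec, hw5 A hA.1, mulVec_smul]
  have hz6 : A *ᵥ z = (T1 A (N - 1 - s + 1) - T1 A (N - 1 - s)) • z := by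
    rw [hz3, mulVec_smul, hw5' A hA.1, smul_comm]
  have h1 := congrFun (hz6.symm.trans hz5) (ix h' 0)
  simp only [Pi.smul_apply, smul_eq_mul] at h1
  exact mul_right_cancel₀ hz4 h1

/-! ### the rotation -/

lemma Eo_rev (a b : Fin N) : Eo N (Fin.rev a) (Fin.rev b) = Fo N a b := by
  have ha := a.2
  have hb := b.2
  unfold Eo Fo irr
  dsimp only
  rw [Fin.val_rev, Fin.val_rev]
  by_cases h : (a : ℕ) = b + 1
  · rw [if_pos (by omega), if_pos h]
    congr 1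
    omega
  · rw [if_neg (by omega), if_neg h]

lemma Ko_rev (a b : Fin N) : Ko N (Fin.rev a) (Fin.rev b) = Pool.Agent.W715.VC.Ki N a b := by
  have ha := a.2
  unfold Ko Pool.Agent.W715.VC.Ki WM.K
  by_cases h : a = b
  · subst h
    rw [Matrix.diagonal_apply_eq, Matrix.diagonal_apply_eq]
    unfold irr
    dsimp only
    rw [Fin.val_rev]
    congr 1
    omega
  · rw [Matrix.diagonal_apply_ne _ h, Matrix.diagonal_apply_ne]
    intro h1
    exact h (Fin.rev_injective h1)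

lemma EE_ro (p q : Fin N × Fin N) : EE N (ro p) (ro q) = FF N p q := by
  rw [EE_apply]
  unfold FF ro
  rw [Matrix.add_apply, Matrix.kroneckerMap_apply, Matrix.kroneckerMap_apply]
  dsimp only
  rw [Eo_rev, Ko_rev, Eo_rev]
  have h1 : (1 : M1 N) (Fin.rev p.2) (Fin.rev q.2) = (1 : M1 N) p.2 q.2 := by
    by_cases h : p.2 = q.2
    · rw [h, Matrix.one_apply_eq, Matrix.one_apply_eq]
    · rw [Matrix.one_apply_ne h, Matrix.one_apply_ne]
      intro h2
      exact h (Fin.rev_injective h2)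
  rw [h1]
  ring

lemma FF_ro (p q : Fin N × Fin N) : FF N (ro p) (ro q) = EE N p q := by
  rw [← EE_ro, ro_ro, ro_ro]

/-- the rotated operator -/
def rm (A : M2 N) : M2 N := fun p q => A (ro p) (ro q)

lemma rm_mul (A B : M2 N) : rm (A * B) = rm A * rm B := by
  ext p q
  show (A * B) (ro p) (ro q) = _
  rw [Matrix.mul_apply, Matrix.mul_apply, ← Equiv.sum_comp roE]
  rfl

lemma rm_EE : rm (EE N) = FF N := by
  ext p q
  exact EE_ro p q

lemma rm_FF : rm (FF N) = EE N := by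
  ext p q
  exact FF_ro p q

lemma Gd.rm {A : M2 N} (hA : Gd A) : Gd (rm A) := by
  refine ⟨⟨?_, ?_⟩, ?_⟩
  · have h := congrArg Pool.Agent.H50B.rm hA.2
    rw [rm_mul, rm_mul, rm_FF] at h
    exact h
  · intro p q h
    have h1 := hA.1.2 (ro p) (ro q) h
    have e : ∀ p : Fin N × Fin N, ((ro p).1 : ℕ) + (ro p).2 = 2 * N - 2 - (p.1 + p.2) := by
      intro p
      show ((Fin.rev p.2 : Fin N) : ℕ) + ((Fin.rev p.1 : Fin N) : ℕ) = _
      have h1 := p.1.2
      have h2 := p.2.2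
      rw [Fin.val_rev, Fin.val_rev]
      omega
    rw [e, e] at h1
    have g1 := p.1.2
    have g2 := p.2.2
    have g3 := q.1.2
    have g4 := q.2.2
    omega
  · have h := congrArg Pool.Agent.H50B.rm hA.1.1
    rw [rm_mul, rm_mul, rm_EE] at h
    exact h

end Pool.Agent.H50B
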