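import Pool.Agent.H50B.S2

/-!
The trace formula.
-/

set_option autoImplicit false

namespace Pool.Agent.H50B

open Matrix Finset Pool.Agent.R807 Pool.Agent.W709.QAT Pool.Agent.H489K
open Pool.Agent.H550R3.Jones hiding W
open Pool.Agent.W715.VC (rt EE FF KK KKi Eo Ko Fo sh M1 M2 adm rt_ne rt_zpow_N EE_FF KK_eq KKi_eq
  br_ne br_N br_zero sh_mul sh_EE sh_FF Eo_sum Fo_sum_succ Fo_sum_zero)

variable {N : ℕ}

lemma ro_wt (p : Fin N × Fin N) : ((ro p).1 : ℕ) + (ro p).2 = 2 * N - 2 - (p.1 + p.2) := by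
  show ((Fin.rev p.2 : Fin N) : ℕ) + ((Fin.rev p.1 : Fin N) : ℕ) = _
  have h1 := p.1.2
  have h2 := p.2.2
  rw [Fin.val_rev, Fin.val_rev]
  omega

lemma W_rm (A : M2 N) {s : ℕ} (hs : s ≤ 2 * N - 2) : W A (2 * N - 2 - s) = W (rm A) s := by
  unfold W
  refine Finset.sum_nbij' ro ro ?_ ?_ ?_ ?_ ?_
  · intro p hp
    simp only [mem_filter, mem_univ, true_and] at hp ⊢
    rw [ro_wt]
    omega
  · intro p hp
    simp only [mem_filter, mem_univ, true_and] at hp ⊢
    rw [ro_wt]
    omega
  · intro p _; exact ro_ro p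
  · intro p _; exact ro_ro p
  · intro p _
    show A p p = A (ro (ro p)) (ro (ro p))
    rw [ro_ro]

lemma T2_rm (A : M2 N) {t : ℕ} (ht : t ≤ N) : T2 A t = T1 (rm A) t := by
  cases t with
  | zero => rfl
  | succ t => exact W_rm A (by omega)

/-- `E` is injective on the low weights -/
lemma EE_inj {n : ℕ} (hn : N ≤ n) {x : Fin N × Fin N → ℂ} (hx : Sw n x) (h : EE N *ᵥ x = 0) :
    x = 0 := by
  have key : ∀ k : ℕ, ∀ p : Fin N × Fin N, (p.2 : ℕ) + k + 1 = N → x p = 0 := by
    intro k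
    induction k with
    | zero =>
      intro p hp
      by_contra h1
      have h2 := hx p h1
      obtain ⟨⟨a, ha⟩, b⟩ := p
      simp only at hp h2
      have hb := b.2
      obtain ⟨a, rfl⟩ : ∃ c, a = c + 1 := ⟨a - 1, by omega⟩
      have h3 := congrFun h (⟨a, by omega⟩, b)
      rw [Matrix.mulVec, dotProduct, EE_sum, Eo_sum (by omega) a (by omega),
        Eo_sum (by omega) b.1 b.2, dif_pos ha, dif_neg (by omega), mul_zero, add_zero] at h3
      have h4 := (mul_eq_zero.1 ((mul_eq_zero.1 h3).resolve_left (zpow_ne_zero _ (rt_ne N)))).resolve_left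
        (br_ne (by omega) (by omega))
      exact h1 h4
    | succ k ih =>
      intro p hp
      by_contra h1
      have h2 := hx p h1
      obtain ⟨⟨a, ha⟩, b⟩ := p
      simp only at hp h2
      have hb := b.2
      obtain ⟨a, rfl⟩ : ∃ c, a = c + 1 := ⟨a - 1, by omega⟩
      have h3 := congrFun h (⟨a, by omega⟩, b)
      rw [Matrix.mulVec, dotProduct, EE_sum, Eo_sum (by omega) a (by omega),
        Eo_sum (by omega) b.1 b.2, dif_pos ha, dif_pos (by omega),
        ih (⟨a, by omega⟩, ⟨(b : ℕ) + 1, by omega⟩) (by simp only; omega), mul_zero, add_zero] at h3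
      have h4 := (mul_eq_zero.1 ((mul_eq_zero.1 h3).resolve_left (zpow_ne_zero _ (rt_ne N)))).resolve_left
        (br_ne (by omega) (by omega))
      exact h1 h4
  funext p
  have := p.2.2
  exact key (N - 1 - p.2) p (by omega)

/-- the second symmetry, lower half -/
lemma lam_rot_low {A : M2 N} (hA : Gd A) {s : ℕ} (hs : s + 1 ≤ N) (h2 : N ≤ 2 * s + 1) :
    T1 (rm A) (s + 1) - T1 (rm A) s = T1 A (s + 1) - T1 A s := by
  have hN : 0 < N := by omega
  obtain ⟨w, hw1, hw2, hw3, hw4, hw5⟩ := hwv hs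
  have hw0 : w ≠ 0 := by
    intro h
    rw [h] at hw2
    simp at hw2
  have hne : ∀ m : ℕ, m ≤ 2 * N - 2 - 2 * s → FF N ^ m *ᵥ w ≠ 0 := by
    intro m
    induction m with
    | zero => intro _; rw [pow_zero, one_mulVec]; exact hw0
    | succ m ih =>
      intro hm h1
      have h3 := (EE_pow hw1 hw3 m).2
      rw [h1, mulVec_zero] at h3
      have h4 : br (rt N) ((m : ℤ) + 1) * br (rt N) (2 * (N : ℤ) - 2 - 2 * s - m) ≠ 0 :=
        mul_ne_zero (br_ne (by omega) (by omega)) (br_ne (by omega) (by omega))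
      rcases smul_eq_zero.1 h3.symm with h5 | h5
      · exact h4 h5
      · exact ih (by omega) h5
  set μ := 2 * N - 2 - 2 * s with hμ
  set u := FF N ^ μ *ᵥ w with hu
  have hu0 : u ≠ 0 := hne μ le_rfl
  have hu1 : Sw (s + μ) u := (EE_pow hw1 hw3 μ).1
  have hu2 : FF N *ᵥ u = 0 := by
    have h3 := (EE_pow hw1 hw3 μ).2
    have e : 2 * (N : ℤ) - 2 - 2 * s - μ = 0 := by omega
    rw [e, br_zero, mul_zero, zero_smul] at h3
    have h4 : FF N *ᵥ u = FF N ^ (μ + 1) *ᵥ w := by
      rw [hu, pow_succ', ← mulVec_mulVec]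
    rw [h4]
    exact EE_inj (n := s + (μ + 1)) (by omega) (EE_pow hw1 hw3 (μ + 1)).1 h3
  have hu3 : A *ᵥ u = (T1 A (s + 1) - T1 A s) • u := by
    rw [hu, mulVec_mulVec, hA.pow, ← mulVec_mulVec, hw5 A hA.1, mulVec_smul]
  set x : Fin N × Fin N → ℂ := fun p => u (ro p) with hx
  have rot : ∀ (B : M2 N) (p : Fin N × Fin N), (rm B *ᵥ x) p = (B *ᵥ u) (ro p) := by
    intro B p
    rw [Matrix.mulVec, dotProduct, Matrix.mulVec, dotProduct]
    exact Equiv.sum_comp roE (fun q => B (ro p) q * u q)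
  have hx1 : Sw s x := by
    intro p hp
    have h3 := hu1 _ hp
    rw [ro_wt] at h3
    have g1 := p.1.2
    have g2 := p.2.2
    omega
  have hx2 : EE N *ᵥ x = 0 := by
    funext p
    rw [← rm_FF, rot, hu2]
    rfl
  have hx3 := hw4 x hx1 hx2
  have hx4 : rm A *ᵥ x = (T1 A (s + 1) - T1 A s) • x := by
    funext p
    rw [rot, hu3]
    rfl
  have hx5 : rm A *ᵥ x = (T1 (rm A) (s + 1) - T1 (rm A) s) • x := by
    rw [hx3, mulVec_smul, hw5 _ hA.rm.1, smul_comm]
  obtain ⟨p, hp⟩ : ∃ p, u p ≠ 0 := by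
    by_contra h
    push Not at h
    exact hu0 (funext h)
  have h3 := congrFun (hx5.symm.trans hx4) (ro p)
  simp only [Pi.smul_apply, smul_eq_mul, hx, ro_ro] at h3
  exact mul_right_cancel₀ hp h3

/-- **the second symmetry** -/
theorem lam_rot {A : M2 N} (hA : Gd A) {s : ℕ} (hs : s + 1 ≤ N) :
    T1 (rm A) (s + 1) - T1 (rm A) s = T1 A (s + 1) - T1 A s := by
  by_cases h : N ≤ 2 * s + 1
  · exact lam_rot_low hA hs h
  · rw [← lam_symm hA (s := s) (by omega), ← lam_symm hA.rm (s := s) (by omega)]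
    exact lam_rot_low hA (by omega) (by omega)

lemma T1_rot {A : M2 N} (hA : Gd A) {t : ℕ} (ht : t ≤ N) : T1 (rm A) t = T1 A t := by
  induction t with
  | zero => rfl
  | succ t ih =>
    have h := lam_rot hA (s := t) ht
    rw [ih (by omega)] at h
    linear_combination h

/-- the eigenvalues -/
noncomputable def lam (A : M2 N) (s : ℕ) : ℂ := T1 A (s + 1) - T1 A s

lemma T1_sum (A : M2 N) (t : ℕ) : T1 A t = ∑ r ∈ range t, lam A r := by
  have h : T1 A 0 = 0 := rfl
  unfold lam
  rw [Finset.sum_range_sub, h, sub_zero]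

theorem lam_refl {A : M2 N} (hA : Gd A) {s : ℕ} (hs : s < N) : lam A (N - 1 - s) = lam A s := by
  unfold lam
  rcases lt_trichotomy (2 * s + 1) N with h | h | h
  · exact lam_symm hA h
  · have e : N - 1 - s = s := by omega
    rw [e]
  · have h1 := lam_symm hA (s := N - 1 - s) (by omega)
    have e : N - 1 - (N - 1 - s) = s := by omega
    rw [e] at h1
    exact h1.symm

lemma T1_refl {A : M2 N} (hA : Gd A) {t : ℕ} (ht : t ≤ N) :
    T1 A (N - t) + T1 A t = ∑ r ∈ range N, lam A r := by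
  induction t with
  | zero =>
    have h : T1 A 0 = 0 := rfl
    rw [h, add_zero, Nat.sub_zero, T1_sum]
  | succ t ih =>
    have h1 := ih (by omega)
    have h2 := lam_refl hA (s := t) (by omega)
    unfold lam at h2
    have e : N - 1 - t + 1 = N - t := by omega
    have e2 : N - 1 - t = N - (t + 1) := by omega
    rw [e, e2] at h2
    rw [← h1]
    linear_combination -h2

/-- **the trace formula** -/
theorem trace_lam (hN : 0 < N) {A : M2 N} (hA : Gd A) :
    A.trace = N * ∑ s ∈ range N, lam A s := by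
  have h1 : ∑ s ∈ range (2 * N), W A s = ∑ t ∈ range N, T1 A (t + 1) + ∑ t ∈ range N, T1 A t := by
    rw [two_mul, Finset.sum_range_add]
    congr 1
    rw [← Finset.sum_range_reflect]
    refine sum_congr rfl fun t ht => ?_
    have := mem_range.1 ht
    rw [← T1_rot hA (t := t) (by omega), ← T2_rm A (by omega)]
    cases t with
    | zero => exact W_big A (by omega)
    | succ t =>
      show W A _ = W A _
      congr 1
      omega
  rw [trace_W, h1, ← Finset.sum_range_reflect (fun t => T1 A (t + 1)), ← Finset.sum_add_distrib]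
  have h2 : ∀ t ∈ range N, T1 A (N - 1 - t + 1) + T1 A t = ∑ r ∈ range N, lam A r := by
    intro t ht
    have := mem_range.1 ht
    have e : N - 1 - t + 1 = N - t := by omega
    rw [e, T1_refl hA (by omega)]
  rw [sum_congr rfl h2, sum_const, card_range, nsmul_eq_mul]

/-- the operators of tangles commute with `E` and `F` -/
theorem mat_Gd (hN : 0 < N) {D : Diag} (hD : Fits D 2 2) : Gd (mat N D) := by
  refine ⟨mat_good hN hD, ?_⟩
  have h := mat_EE hN (adj_fits hD)
  rw [mat_adj hN hD] at h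
  have h1 := congrArg sh h
  have hss : sh (sh (mat N D)) = mat N D := by
    ext p q
    simp [sh]
  rw [sh_mul, sh_mul, hss, sh_EE hN, Matrix.neg_mul, Matrix.mul_neg, neg_inj] at h1
  exact h1.symm

end Pool.Agent.H50B
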