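import Pool.Agent.H50B.S3
import Pool.Agent.H50B.JP
import Pool.Agent.H50B.JT

/-!
Half twists.
-/

set_option autoImplicit false

namespace Pool.Agent.H50B

open Matrix Finset Pool.Agent.R807 Pool.Agent.W709.QAT Pool.Agent.H489K
open Pool.Agent.H550R3.Jones hiding W
open Pool.Agent.W715.VC (rt EE FF sh M1 M2 adm rt_ne rt_zpow_N sh_mul norm_rt_zpow)

variable {N : ℕ}

/-- `k` half twists -/
def htw (k : ℕ) : Diag := [.twist 0 true k]

lemma fits_htw (k : ℕ) : Fits (htw k) 2 2 := rfl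

lemma mat_htw (k : ℕ) : mat N (htw k) = cr N true ^ k := by
  ext p q
  have h := act_twist 0 true k (dl q) [] p.1 p.2 [] rfl
  simp only [List.nil_append] at h
  change (Piece.twist 0 true k).act N (rt N) (dl q) [p.1, p.2] = _
  rw [h, sum_eq_single q]
  · unfold dl
    rw [if_pos rfl, mul_one]
  · intro b _ hb
    unfold dl
    rw [if_neg, mul_zero]
    intro h1
    apply hb
    simp only [List.cons.injEq, and_true] at h1
    exact Prod.ext h1.1 h1.2
  · intro h; exact absurd (mem_univ _) h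

lemma lam_mul {A B : M2 N} (hA : Good A) (hB : Good B) {s : ℕ} (h : s + 1 ≤ N) :
    lam (A * B) s = lam A s * lam B s := chi_one hA hB h

lemma lam_pow {A B : M2 N} (hA : Good A) (hB : Good B) {s : ℕ} (h : s + 1 ≤ N) (k : ℕ) :
    Good (A ^ k * B) ∧ lam (A ^ k * B) s = lam A s ^ k * lam B s := by
  induction k with
  | zero => rw [pow_zero, one_mul, pow_zero, one_mul]; exact ⟨hB, rfl⟩
  | succ k ih =>
    rw [pow_succ', Matrix.mul_assoc]
    refine ⟨hA.mul ih.1, ?_⟩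
    rw [lam_mul hA ih.1 h, ih.2, pow_succ']
    ring

lemma lam_sh (A : M2 N) (s : ℕ) : lam (sh A) s = (starRingEnd ℂ) (lam A s) := by
  have h1 : ∀ s, T1 (sh A) s = (starRingEnd ℂ) (T1 A s) := by
    intro s
    cases s with
    | zero => simp [T1]
    | succ s => exact W_sh A s
  unfold lam
  rw [h1, h1, map_sub]

/-- the eigenvalue of the half twist -/
lemma lam_tw (hN : 0 < N) {s : ℕ} (h : s + 1 ≤ N) : lam (cr N true) s =
    rt N ^ (-((N : ℤ) - 1)) * rt N ^ ((s : ℤ) * ((s : ℤ) + 1 + N)) := by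
  unfold lam
  rw [JT.taskT N s h]
  have h0 := rt_ne N
  have e1 : ((-1 : ℂ)) ^ s = rt N ^ ((N : ℤ) * s) := by
    rw [_root_.zpow_mul, rt_zpow_N hN, zpow_natCast]
  have e2 : rt N ^ ((N : ℤ) * (2 * s)) = 1 := by
    rw [_root_.zpow_mul, rt_zpow_N hN, _root_.zpow_mul]
    norm_num
  rw [e1, ← zpow_add₀ h0, ← zpow_add₀ h0]
  have e3 : -((N : ℤ) - 1) + (s : ℤ) * ((s : ℤ) + 1 + N) =
      ((N : ℤ) * s + (-((N : ℤ) - 1) * (1 + 2 * (s : ℤ)) + (s : ℤ) * ((s : ℤ) - 1))) +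
        (N : ℤ) * (2 * s) := by ring
  rw [e3, zpow_add₀ h0 _ ((N : ℤ) * (2 * s)), e2, mul_one]

/-- the invariant of the closure with half twists -/
lemma norm_tw (hN : 0 < N) {T : Diag} (hT : Fits T 2 2) (k : ℕ) :
    ‖jones N (belt (T ++ htw k)) (rt N)‖ =
      N * ‖∑ s ∈ range N, lam (mat N T) s * (rt N ^ ((s : ℤ) * ((s : ℤ) + 1 + N))) ^ k‖ := by
  have hf : Fits (T ++ htw k) 2 2 := fits_append hT (fits_htw k)
  rw [norm_belt hN hf, trace_lam hN (mat_Gd hN hf), norm_mul, Complex.norm_natCast,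
    mat_append (fits_htw k), mat_htw]
  congr 1
  have h1 : ∀ s ∈ range N, lam (cr N true ^ k * mat N T) s =
      (rt N ^ (-((N : ℤ) - 1))) ^ k *
        (lam (mat N T) s * (rt N ^ ((s : ℤ) * ((s : ℤ) + 1 + N))) ^ k) := by
    intro s hs
    have hs' := mem_range.1 hs
    have hG : Good (cr N true) := by
      have h := mat_good hN (fits_htw 1)
      rw [mat_htw, pow_one] at h
      exact h
    rw [(lam_pow hG (mat_good hN hT) (s := s) (by omega) k).2, lam_tw hN (by omega), mul_pow]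
    ring
  rw [sum_congr rfl h1, ← mul_sum, norm_mul, norm_pow, norm_rt_zpow, one_pow, one_mul]

/-- the invariant of the palindromic closure -/
lemma norm_pal (hN : 0 < N) {T : Diag} (hT : Fits T 2 2) :
    ‖jones N (belt (T ++ adj T 2)) (rt N)‖ = N * ∑ s ∈ range N, ‖lam (mat N T) s‖ ^ 2 := by
  have hf : Fits (T ++ adj T 2) 2 2 := fits_append hT (adj_fits hT)
  rw [norm_belt hN hf, trace_lam hN (mat_Gd hN hf), norm_mul, Complex.norm_natCast,
    mat_append (adj_fits hT)]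
  congr 1
  have h1 : ∀ s ∈ range N, lam (mat N (adj T 2) * mat N T) s = ((‖lam (mat N T) s‖ ^ 2 : ℝ) : ℂ) := by
    intro s hs
    have hs' := mem_range.1 hs
    rw [lam_mul (mat_good hN (adj_fits hT)) (mat_good hN hT) (by omega), mat_adj hN hT, lam_sh,
      ← Complex.normSq_eq_conj_mul_self, Complex.normSq_eq_norm_sq]
  rw [sum_congr rfl h1, ← Complex.ofReal_sum, Complex.norm_real, Real.norm_eq_abs, abs_of_nonneg]
  exact sum_nonneg fun s _ => by positivity

/-- **upper bound** -/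
theorem upper (hN : 0 < N) {T : Diag} (hT : Fits T 2 2) (k : ℕ) :
    ‖jones N (belt (T ++ htw k)) (rt N)‖ ^ 2 ≤
      (N : ℝ) ^ 2 * ‖jones N (belt (T ++ adj T 2)) (rt N)‖ := by
  rw [norm_tw hN hT, norm_pal hN hT, mul_pow]
  refine mul_le_mul_of_nonneg_left ?_ (by positivity)
  have h1 : ‖∑ s ∈ range N, lam (mat N T) s * (rt N ^ ((s : ℤ) * ((s : ℤ) + 1 + N))) ^ k‖ ≤
      ∑ s ∈ range N, ‖lam (mat N T) s‖ := by
    refine (norm_sum_le _ _).trans (le_of_eq (sum_congr rfl fun s _ => ?_))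
    rw [norm_mul, norm_pow, norm_rt_zpow, one_pow, mul_one]
  refine (pow_le_pow_left₀ (norm_nonneg _) h1 2).trans ?_
  have h2 := sq_sum_le_card_mul_sum_sq (s := range N) (f := fun s => ‖lam (mat N T) s‖)
  rw [card_range] at h2
  exact h2

/-- **lower bound** -/
theorem lower_tw (hp : N.Prime) (h2 : 2 < N) {T : Diag} (hT : Fits T 2 2) :
    ∃ k < 2 * N, (N : ℝ) * ‖jones N (belt (T ++ adj T 2)) (rt N)‖ ≤
      ‖jones N (belt (T ++ htw k)) (rt N)‖ ^ 2 := by
  have hN : 0 < N := by omega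
  by_contra hcon
  push Not at hcon
  have h1 := JP.taskP N hp h2 (fun s => lam (mat N T) s) (fun s hs => lam_refl (mat_Gd hN hT) hs)
  have h3 : ∑ k ∈ range (2 * N), ‖jones N (belt (T ++ htw k)) (rt N)‖ ^ 2 <
      ∑ _k ∈ range (2 * N), (N : ℝ) * ‖jones N (belt (T ++ adj T 2)) (rt N)‖ :=
    sum_lt_sum_of_nonempty ⟨0, mem_range.2 (by omega)⟩ fun k hk => hcon k (mem_range.1 hk)
  rw [sum_const, card_range, nsmul_eq_mul, norm_pal hN hT] at h3
  have h4 : ∑ k ∈ range (2 * N), ‖jones N (belt (T ++ htw k)) (rt N)‖ ^ 2 = (N : ℝ) ^ 2 *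
      ∑ k ∈ range (2 * N), ‖∑ s ∈ range N, lam (mat N T) s *
        (rt N ^ ((s : ℤ) * ((s : ℤ) + 1 + N))) ^ k‖ ^ 2 := by
    rw [mul_sum]
    exact sum_congr rfl fun k _ => by rw [norm_tw hN hT, mul_pow]
  rw [h4] at h3
  have h5 := mul_le_mul_of_nonneg_left h1 (by positivity : (0 : ℝ) ≤ (N : ℝ) ^ 2)
  push_cast at h3
  nlinarith [h3, h5]

end Pool.Agent.H50B
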